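import Mathlib

/-!
# Automorphisms of the polynomial ring in two variables
-/

set_option autoImplicit false

namespace Pool.Agent.K7.H10.PA

open MvPolynomial Matrix

/-- the group of the automorphisms of the `A`-algebra `A[x, y]`; the variables are `X 0`, `X 1` -/
abbrev Aut2 (A : Type) [CommRing A] : Type := MvPolynomial (Fin 2) A ≃ₐ[A] MvPolynomial (Fin 2) A

section basic

variable {A : Type} [CommRing A]

theorem aut_ext {φ ψ : Aut2 A} (h : ∀ i, φ (X i) = ψ (X i)) : φ = ψ := by
  apply AlgEquiv.coe_toAlgHom_injective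
  apply MvPolynomial.algHom_ext
  intro i
  exact h i

/-- the coefficient of `X j` -/
noncomputable def lc (j : Fin 2) (p : MvPolynomial (Fin 2) A) : A := coeff (Finsupp.single j 1) p

theorem lc_add (j : Fin 2) (p q : MvPolynomial (Fin 2) A) : lc j (p + q) = lc j p + lc j q :=
  coeff_add _ _ _

theorem lc_sub (j : Fin 2) (p q : MvPolynomial (Fin 2) A) : lc j (p - q) = lc j p - lc j q :=
  coeff_sub _ _ _ _

theorem lc_C (j : Fin 2) (a : A) : lc j (C a) = 0 := by
  rw [lc, coeff_C, if_neg]
  intro h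
  have := DFunLike.congr_fun h j
  simp at this

theorem lc_X (j i : Fin 2) : lc j (X i : MvPolynomial (Fin 2) A) = if i = j then 1 else 0 := by
  rw [lc, coeff_X]
  by_cases h : i = j
  · subst h; simp
  · rw [if_neg, if_neg h]
    intro h2
    apply h
    exact (Finsupp.single_left_injective one_ne_zero h2)

theorem lc_mul (j : Fin 2) (p q : MvPolynomial (Fin 2) A) :
    lc j (p * q) = lc j p * constantCoeff q + constantCoeff p * lc j q := by
  rw [lc, coeff_mul, Finsupp.antidiagonal_single]
  simp [lc, constantCoeff_eq, Finset.Nat.antidiagonal_succ]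
  ring

theorem lc_C_mul (j : Fin 2) (a : A) (q : MvPolynomial (Fin 2) A) :
    lc j (C a * q) = a * lc j q := by
  rw [lc_mul, lc_C, zero_mul, zero_add, constantCoeff_C]

/-- the automorphisms that fix the origin -/
noncomputable def St (A : Type) [CommRing A] : Subgroup (Aut2 A) where
  carrier := {φ | ∀ p, constantCoeff (φ p) = constantCoeff p}
  one_mem' := fun p => rfl
  mul_mem' := by
    intro φ ψ h1 h2 p
    show constantCoeff (φ (ψ p)) = _
    rw [h1, h2]
  inv_mem' := by
    intro φ h p
    have h1 := h (φ⁻¹ p)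
    rw [← h1]
    congr 1
    exact (φ.apply_symm_apply p)

theorem mem_St {φ : Aut2 A} : φ ∈ St A ↔ ∀ i, constantCoeff (φ (X i)) = 0 := by
  constructor
  · intro h i
    rw [h, constantCoeff_X]
  · intro h p
    have h1 : (constantCoeff (σ := Fin 2) (R := A)).comp
        (φ : MvPolynomial (Fin 2) A →+* MvPolynomial (Fin 2) A) = constantCoeff := by
      apply MvPolynomial.ringHom_ext
      · intro a
        show constantCoeff (φ (C a)) = constantCoeff (C a)
        have : φ (C a) = C a := φ.commutes a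
        rw [this]
      · intro i
        show constantCoeff (φ (X i)) = constantCoeff (X i)
        rw [h, constantCoeff_X]
    exact DFunLike.congr_fun h1 p

/-- the matrix of the linear parts -/
noncomputable def LM (φ : Aut2 A) : Matrix (Fin 2) (Fin 2) A := Matrix.of fun j i => lc j (φ (X i))

theorem lc_aut {φ : Aut2 A} (hφ : φ ∈ St A) (k : Fin 2) (p : MvPolynomial (Fin 2) A) :
    lc k (φ p) = ∑ j, LM φ k j * lc j p := by
  induction p using MvPolynomial.induction_on with
  | C a =>
    have : φ (C a) = C a := φ.commutes a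
    rw [this]
    simp [lc_C]
  | add p q hp hq =>
    rw [map_add, lc_add, hp, hq, ← Finset.sum_add_distrib]
    refine Finset.sum_congr rfl fun j _ => ?_
    rw [lc_add, mul_add]
  | mul_X p i hp =>
    rw [map_mul, lc_mul, hφ (X i), hφ p, constantCoeff_X, mul_zero, zero_add]
    rw [Finset.sum_congr rfl fun j _ => by rw [lc_mul, constantCoeff_X, mul_zero, zero_add, lc_X]]
    simp [LM]
    ring

theorem LM_mul {φ ψ : Aut2 A} (hφ : φ ∈ St A) : LM (φ * ψ) = LM φ * LM ψ := by
  ext k i
  rw [Matrix.mul_apply]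
  exact lc_aut hφ k (ψ (X i))

theorem LM_one : LM (1 : Aut2 A) = 1 := by
  ext k i
  show lc k (X i) = _
  rw [lc_X, Matrix.one_apply]
  simp [eq_comm]

/-- the linear part -/
noncomputable def lin (A : Type) [CommRing A] : St A →* GL (Fin 2) A where
  toFun φ := ⟨LM φ.1, LM φ.1⁻¹, by rw [← LM_mul φ.2, mul_inv_cancel, LM_one],
    by rw [← LM_mul ((St A).inv_mem φ.2), inv_mul_cancel, LM_one]⟩
  map_one' := Units.ext LM_one
  map_mul' φ ψ := Units.ext (LM_mul φ.2)

theorem lin_val (φ : St A) (j i : Fin 2) : (lin A φ).val j i = lc j (φ.1 (X i)) := rfl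

/-! ### Linear automorphisms -/

/-- the linear endomorphism of a matrix -/
noncomputable def laH (g : Matrix (Fin 2) (Fin 2) A) :
    MvPolynomial (Fin 2) A →ₐ[A] MvPolynomial (Fin 2) A :=
  aeval fun i => ∑ j, C (g j i) * X j

theorem laH_X (g : Matrix (Fin 2) (Fin 2) A) (i : Fin 2) : laH g (X i) = ∑ j, C (g j i) * X j :=
  aeval_X _ _

theorem laH_C (g : Matrix (Fin 2) (Fin 2) A) (a : A) : laH g (C a) = C a := (laH g).commutes a

theorem laH_mul (g h : Matrix (Fin 2) (Fin 2) A) : (laH g).comp (laH h) = laH (g * h) := by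
  apply MvPolynomial.algHom_ext
  intro i
  rw [AlgHom.comp_apply, laH_X, laH_X]
  simp only [Fin.sum_univ_two, map_add, map_mul, laH_X, laH_C, Matrix.mul_apply]
  ring

theorem laH_one : laH (1 : Matrix (Fin 2) (Fin 2) A) = AlgHom.id A _ := by
  apply MvPolynomial.algHom_ext
  intro i
  rw [laH_X, Fin.sum_univ_two, Matrix.one_apply, Matrix.one_apply]
  show _ = X i
  fin_cases i <;> simp

/-- the linear automorphisms -/
noncomputable def la : GL (Fin 2) A →* Aut2 A where
  toFun g := AlgEquiv.ofAlgHom (laH g.val) (laH g⁻¹.val)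
    (by rw [laH_mul, ← Units.val_mul, mul_inv_cancel, Units.val_one, laH_one])
    (by rw [laH_mul, ← Units.val_mul, inv_mul_cancel, Units.val_one, laH_one])
  map_one' := aut_ext fun i => by
    show laH (1 : GL (Fin 2) A).val (X i) = X i
    rw [Units.val_one, laH_one]
    rfl
  map_mul' g h := aut_ext fun i => by
    show laH (g * h).val (X i) = laH g.val (laH h.val (X i))
    rw [Units.val_mul, ← laH_mul]
    rfl

theorem la_X (g : GL (Fin 2) A) (i : Fin 2) : la g (X i) = ∑ j, C (g.val j i) * X j := laH_X _ _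

theorem la_C (g : GL (Fin 2) A) (a : A) : la g (C a) = C a := (la g).commutes a

theorem la_mem (g : GL (Fin 2) A) : la g ∈ St A := by
  rw [mem_St]
  intro i
  rw [la_X]
  simp

theorem lin_la (g : GL (Fin 2) A) : lin A ⟨la g, la_mem g⟩ = g := by
  apply Units.ext
  ext j i
  rw [lin_val]
  show lc j (la g (X i)) = _
  rw [la_X, Fin.sum_univ_two, lc_add, lc_C_mul, lc_C_mul, lc_X, lc_X]
  fin_cases j <;> simp

/-! ### Shears -/

/-- the linear form `det (v, x)` -/
noncomputable def el (v : Fin 2 → A) : MvPolynomial (Fin 2) A := C (v 0) * X 1 - C (v 1) * X 0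

/-- the shear `x ↦ x + p (det (v, x)) v` -/
noncomputable def shH (v : Fin 2 → A) (p : Polynomial A) :
    MvPolynomial (Fin 2) A →ₐ[A] MvPolynomial (Fin 2) A :=
  aeval fun i => X i + C (v i) * Polynomial.aeval (el v) p

theorem shH_X (v : Fin 2 → A) (p : Polynomial A) (i : Fin 2) :
    shH v p (X i) = X i + C (v i) * Polynomial.aeval (el v) p := aeval_X _ _

theorem shH_C (v : Fin 2 → A) (p : Polynomial A) (a : A) : shH v p (C a) = C a :=
  (shH v p).commutes a

theorem shH_el (v : Fin 2 → A) (p : Polynomial A) : shH v p (el v) = el v := by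
  rw [el, map_sub, map_mul, map_mul, shH_X, shH_X, shH_C, shH_C]
  ring

theorem shH_mul (v : Fin 2 → A) (p q : Polynomial A) :
    (shH v p).comp (shH v q) = shH v (p + q) := by
  apply MvPolynomial.algHom_ext
  intro i
  rw [AlgHom.comp_apply, shH_X, shH_X, map_add, map_mul, shH_C, shH_X, map_add,
    ← Polynomial.aeval_algHom_apply, shH_el]
  ring

theorem shH_zero (v : Fin 2 → A) : shH v 0 = AlgHom.id A _ := by
  apply MvPolynomial.algHom_ext
  intro i
  rw [shH_X, map_zero, mul_zero, add_zero]
  rfl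

/-- the shears as automorphisms -/
noncomputable def sh (v : Fin 2 → A) (p : Polynomial A) : Aut2 A :=
  AlgEquiv.ofAlgHom (shH v p) (shH v (-p)) (by rw [shH_mul, add_neg_cancel, shH_zero])
    (by rw [shH_mul, neg_add_cancel, shH_zero])

theorem sh_X (v : Fin 2 → A) (p : Polynomial A) (i : Fin 2) :
    sh v p (X i) = X i + C (v i) * Polynomial.aeval (el v) p := shH_X _ _ _

theorem sh_C (v : Fin 2 → A) (p : Polynomial A) (a : A) : sh v p (C a) = C a :=
  (sh v p).commutes a

theorem sh_mul (v : Fin 2 → A) (p q : Polynomial A) : sh v p * sh v q = sh v (p + q) := by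
  apply aut_ext
  intro i
  show shH v p (shH v q (X i)) = shH v (p + q) (X i)
  rw [← shH_mul]
  rfl

theorem sh_zero (v : Fin 2 → A) : sh v 0 = 1 := by
  apply aut_ext
  intro i
  show shH v 0 (X i) = X i
  rw [shH_zero]
  rfl

theorem sh_inv (v : Fin 2 → A) (p : Polynomial A) : (sh v p)⁻¹ = sh v (-p) := by
  rw [inv_eq_iff_mul_eq_one, sh_mul, add_neg_cancel, sh_zero]

theorem sh_comm (v : Fin 2 → A) (p q : Polynomial A) : sh v p * sh v q = sh v q * sh v p := by
  rw [sh_mul, sh_mul, add_comm]

theorem sh_smul (v : Fin 2 → A) (a : A) (p : Polynomial A) :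
    sh (a • v) p = sh v (Polynomial.C a * p.comp (Polynomial.C a * Polynomial.X)) := by
  apply aut_ext
  intro i
  rw [sh_X, sh_X, map_mul, Polynomial.aeval_C, Polynomial.aeval_comp, map_mul, Polynomial.aeval_C,
    Polynomial.aeval_X]
  have h1 : el (a • v) = algebraMap A (MvPolynomial (Fin 2) A) a * el v := by
    rw [el, el, MvPolynomial.algebraMap_eq]
    simp
    ring
  rw [h1, MvPolynomial.algebraMap_eq]
  simp
  ring

theorem cc_sh {p : Polynomial A} (hp : Polynomial.X ∣ p) (v : Fin 2 → A) :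
    constantCoeff (Polynomial.aeval (el v) p) = 0 := by
  obtain ⟨q, rfl⟩ := hp
  rw [map_mul, Polynomial.aeval_X, map_mul]
  have : constantCoeff (el v) = 0 := by simp [el]
  rw [this, zero_mul]

theorem sh_mem {p : Polynomial A} (hp : Polynomial.X ∣ p) (v : Fin 2 → A) : sh v p ∈ St A := by
  rw [mem_St]
  intro i
  rw [sh_X, map_add, map_mul, cc_sh hp, mul_zero, constantCoeff_X, add_zero]

theorem lin_sh {p : Polynomial A} (hp : Polynomial.X ^ 2 ∣ p) (v : Fin 2 → A) (hm : sh v p ∈ St A) :
    lin A ⟨sh v p, hm⟩ = 1 := by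
  apply Units.ext
  ext j i
  rw [lin_val]
  show lc j (sh v p (X i)) = (1 : Matrix (Fin 2) (Fin 2) A) j i
  rw [sh_X, lc_add, lc_C_mul, lc_X]
  have h0 : lc j (Polynomial.aeval (el v) p) = 0 := by
    obtain ⟨q, rfl⟩ := hp
    have : constantCoeff (el v) = 0 := by simp [el]
    rw [map_mul, map_pow, Polynomial.aeval_X, pow_two, lc_mul, lc_mul, map_mul, this]
    ring
  rw [h0, mul_zero, add_zero, Matrix.one_apply]
  simp [eq_comm]

theorem la_sh (g : GL (Fin 2) A) (v : Fin 2 → A) (p : Polynomial A) :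
    la g * sh v p * (la g)⁻¹ =
      sh ((g⁻¹).valᵀ *ᵥ v) (p.comp (Polynomial.C g.val.det * Polynomial.X)) := by
  rw [mul_inv_eq_iff_eq_mul]
  apply aut_ext
  intro i
  have hinv : g.val * g⁻¹.val = 1 := by rw [← Units.val_mul, mul_inv_cancel, Units.val_one]
  have hinv' : g⁻¹.val * g.val = 1 := by rw [← Units.val_mul, inv_mul_cancel, Units.val_one]
  set u : Fin 2 → A := (g⁻¹).valᵀ *ᵥ v with hu
  have hv : v = g.valᵀ *ᵥ u := by
    rw [hu, Matrix.mulVec_mulVec, ← Matrix.transpose_mul, hinv', Matrix.transpose_one,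
      Matrix.one_mulVec]
  have hel : la g (el v) = C g.val.det * el u := by
    rw [el, el, map_sub, map_mul, map_mul, la_X, la_X, la_C, la_C, hv, Matrix.det_fin_two]
    simp only [Fin.sum_univ_two, Matrix.mulVec, dotProduct, Matrix.transpose_apply, map_add,
      map_mul, map_sub]
    ring
  show la g (sh v p (X i)) = sh u _ (la g (X i))
  rw [sh_X, map_add, map_mul, la_C, ← Polynomial.aeval_algHom_apply, la_X, map_sum]
  rw [hel]
  have h3 : v i = ∑ j, g.val j i * u j := by
    rw [hv]
    simp [Matrix.mulVec, dotProduct, Matrix.transpose_apply]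
  rw [h3, map_sum]
  simp only [map_mul, sh_C, sh_X, Polynomial.aeval_comp, Polynomial.aeval_C, Polynomial.aeval_X,
    MvPolynomial.algebraMap_eq, Fin.sum_univ_two]
  ring

end basic

end Pool.Agent.K7.H10.PA
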