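import Pool.Agent.K7.H10.PA.Tame

/-!
# Change of rings
-/

set_option autoImplicit false

namespace Pool.Agent.K7.H10.PA

open MvPolynomial Matrix

section bc

variable {A B D : Type} [CommRing A] [CommRing B] [CommRing D]

/-- base change as a homomorphism of algebras -/
noncomputable def bcH (f : A →+* B) (φ : Aut2 A) :
    MvPolynomial (Fin 2) B →ₐ[B] MvPolynomial (Fin 2) B :=
  aeval fun i => map f (φ (X i))

theorem bcH_X (f : A →+* B) (φ : Aut2 A) (i : Fin 2) : bcH f φ (X i) = map f (φ (X i)) :=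
  aeval_X _ _

theorem bcH_map (f : A →+* B) (φ : Aut2 A) (p : MvPolynomial (Fin 2) A) :
    bcH f φ (map f p) = map f (φ p) := by
  have h1 : ((bcH f φ : MvPolynomial (Fin 2) B →ₐ[B] MvPolynomial (Fin 2) B) :
      MvPolynomial (Fin 2) B →+* MvPolynomial (Fin 2) B).comp (map f) =
      (map f).comp (φ : MvPolynomial (Fin 2) A →+* MvPolynomial (Fin 2) A) := by
    apply MvPolynomial.ringHom_ext
    · intro a
      show bcH f φ (map f (C a)) = map f (φ (C a))
      have h2 : φ (C a) = C a := φ.commutes a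
      rw [h2, map_C]
      exact (bcH f φ).commutes (f a)
    · intro i
      show bcH f φ (map f (X i)) = map f (φ (X i))
      rw [map_X, bcH_X]
  exact DFunLike.congr_fun h1 p

theorem bcH_comp (f : A →+* B) (φ ψ : Aut2 A) :
    (bcH f φ).comp (bcH f ψ) = bcH f (φ * ψ) := by
  apply MvPolynomial.algHom_ext
  intro i
  rw [AlgHom.comp_apply, bcH_X, bcH_map, bcH_X]
  rfl

theorem bcH_one (f : A →+* B) : bcH f 1 = AlgHom.id B _ := by
  apply MvPolynomial.algHom_ext
  intro i
  rw [bcH_X]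
  show map f (X i) = X i
  rw [map_X]

/-- change of rings -/
noncomputable def bc (f : A →+* B) : Aut2 A →* Aut2 B where
  toFun φ := AlgEquiv.ofAlgHom (bcH f φ) (bcH f φ⁻¹)
    (by rw [bcH_comp, mul_inv_cancel, bcH_one]) (by rw [bcH_comp, inv_mul_cancel, bcH_one])
  map_one' := aut_ext fun i => by
    have h : bcH f 1 (X i) = X i := by rw [bcH_one]; rfl
    exact h
  map_mul' φ ψ := aut_ext fun i => by
    have h : bcH f (φ * ψ) (X i) = bcH f φ (bcH f ψ (X i)) := by
      rw [← bcH_comp]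
      rfl
    exact h

theorem bc_X (f : A →+* B) (φ : Aut2 A) (i : Fin 2) : bc f φ (X i) = map f (φ (X i)) :=
  bcH_X f φ i

theorem bc_bc (f : A →+* B) (g : B →+* D) (φ : Aut2 A) : bc g (bc f φ) = bc (g.comp f) φ := by
  apply aut_ext
  intro i
  rw [bc_X, bc_X, bc_X, MvPolynomial.map_map]

theorem bc_injective {f : A →+* B} (hf : Function.Injective f) : Function.Injective (bc f) := by
  intro φ ψ h
  apply aut_ext
  intro i
  apply map_injective f hf
  rw [← bc_X, ← bc_X, h]

theorem lc_map (f : A →+* B) (j : Fin 2) (p : MvPolynomial (Fin 2) A) :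
    lc j (map f p) = f (lc j p) := coeff_map _ _ _

theorem bc_mem (f : A →+* B) {φ : Aut2 A} (h : φ ∈ St A) : bc f φ ∈ St B := by
  rw [mem_St] at h ⊢
  intro i
  rw [bc_X, constantCoeff_map, h, map_zero]

theorem lin_bc (f : A →+* B) (φ : Aut2 A) (h : φ ∈ St A) :
    lin B ⟨bc f φ, bc_mem f h⟩ = GeneralLinearGroup.map f (lin A ⟨φ, h⟩) := by
  apply Units.ext
  ext j i
  rw [lin_val]
  show lc j (bc f φ (X i)) = f (lc j (φ (X i)))
  rw [bc_X, lc_map]

theorem bc_la (f : A →+* B) (g : GL (Fin 2) A) : bc f (la g) = la (GeneralLinearGroup.map f g) := by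
  apply aut_ext
  intro i
  rw [bc_X, la_X, la_X, map_sum]
  refine Finset.sum_congr rfl fun j _ => ?_
  rw [map_mul, map_X, map_C]
  rfl

theorem bc_tr (f : A →+* B) (b : Fin 2 → A) : bc f (tr b) = tr (fun i => f (b i)) := by
  apply aut_ext
  intro i
  rw [bc_X, tr_X, tr_X, map_add, map_X, map_C]

end bc

end Pool.Agent.K7.H10.PA
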