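import Pool.Agent.K7.H10.PA.Tame
import Pool.Agent.K7.H87.FJ2.Ext

/-!
# The case of a field
-/

set_option autoImplicit false

namespace Pool.Agent.K7.H10.PA

open MvPolynomial Matrix Pool.Agent.Y110.FJ Pool.Agent.R684.FP
open Pool.Agent.R941.FJ (C_equiv C_le C_cyc)
open Pool.Agent.K7.H87.FJ2 (vec vec_ne vec_par exists_vec par_trans solv_sup)

variable {K : Type} [Field K]

/-- the action on polynomial curves -/
noncomputable def crv (φ : Aut2 K) (w : Fin 2 → Polynomial K) : Fin 2 → Polynomial K :=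
  fun i => aeval w (φ⁻¹ (X i))

theorem crv_aeval (φ : Aut2 K) (w : Fin 2 → Polynomial K) (p : MvPolynomial (Fin 2) K) :
    aeval (crv φ w) p = aeval w (φ⁻¹ p) := by
  have h1 : (aeval (crv φ w) : MvPolynomial (Fin 2) K →ₐ[K] Polynomial K) =
      (aeval w : MvPolynomial (Fin 2) K →ₐ[K] Polynomial K).comp (φ⁻¹ : Aut2 K) := by
    apply MvPolynomial.algHom_ext
    intro i
    rw [aeval_X]
    rfl
  rw [h1]
  rfl

theorem crv_mul (φ ψ : Aut2 K) (w : Fin 2 → Polynomial K) : crv (φ * ψ) w = crv φ (crv ψ w) := by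
  funext i
  show aeval w ((φ * ψ)⁻¹ (X i)) = aeval (crv ψ w) (φ⁻¹ (X i))
  rw [crv_aeval, _root_.mul_inv_rev]
  rfl

theorem crv_one (w : Fin 2 → Polynomial K) : crv 1 w = w := by
  funext i
  show aeval w (X i) = w i
  rw [aeval_X]

/-- the leading vector of `w` is parallel to `v`, and the degree is positive -/
def Ld (v : Fin 2 → K) (w : Fin 2 → Polynomial K) : Prop :=
  ∃ n : ℕ, 1 ≤ n ∧ (∀ i, (w i).natDegree ≤ n) ∧ (∃ i, (w i).coeff n ≠ 0) ∧
    v 0 * (w 1).coeff n = v 1 * (w 0).coeff n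

theorem Ld_unique {x y : Option K} {w : Fin 2 → Polynomial K} (hx : Ld (vec x) w)
    (hy : Ld (vec y) w) : x = y := by
  obtain ⟨n, _, h⟩ := hx
  obtain ⟨m, _, h'⟩ := hy
  exact Pool.Agent.K7.H87.FJ2.Ld_unique ⟨n, h⟩ ⟨m, h'⟩

theorem crv_sh (v : Fin 2 → K) (p : Polynomial K) (w : Fin 2 → Polynomial K) (i : Fin 2) :
    crv (sh v p) w i = w i + Polynomial.C (v i) *
      (-p).comp (Polynomial.C (v 0) * w 1 - Polynomial.C (v 1) * w 0) := by
  show aeval w ((sh v p)⁻¹ (X i)) = _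
  rw [sh_inv, sh_X, map_add, map_mul, aeval_X, aeval_C, ← Polynomial.aeval_algHom_apply,
    Polynomial.aeval_def, Polynomial.algebraMap_eq, el, map_sub, map_mul, map_mul, aeval_X, aeval_X,
    aeval_C, aeval_C, Polynomial.algebraMap_eq]
  rfl

/-- ping-pong -/
theorem Ld_move {x y : Option K} (hxy : x ≠ y) {w : Fin 2 → Polynomial K} (hy : Ld (vec y) w)
    {p : Polynomial K} (hp : Polynomial.X ^ 2 ∣ p) (hp0 : p ≠ 0) :
    Ld (vec x) (crv (sh (vec x) p) w) := by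
  obtain ⟨n, hn, h1, h2, h3⟩ := hy
  set d : K := vec x 0 * (w 1).coeff n - vec x 1 * (w 0).coeff n with hd
  have hd0 : d ≠ 0 := by
    intro h
    exact hxy (vec_par (par_trans (c := fun i => (w i).coeff n) h2 (sub_eq_zero.1 h) h3))
  set δ : Polynomial K := Polynomial.C (vec x 0) * w 1 - Polynomial.C (vec x 1) * w 0 with hδ
  have hδn : δ.natDegree ≤ n := by
    refine (Polynomial.natDegree_sub_le _ _).trans (max_le ?_ ?_)
    · exact (Polynomial.natDegree_C_mul_le _ _).trans (h1 1)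
    · exact (Polynomial.natDegree_C_mul_le _ _).trans (h1 0)
  have hδc : δ.coeff n = d := by
    rw [hδ, Polynomial.coeff_sub, Polynomial.coeff_C_mul, Polynomial.coeff_C_mul]
  have hδd : δ.natDegree = n := by
    refine le_antisymm hδn (Polynomial.le_natDegree_of_ne_zero ?_)
    rw [hδc]
    exact hd0
  have hδl : δ.leadingCoeff = d := by
    rw [Polynomial.leadingCoeff, hδd, hδc]
  have hm : 2 ≤ p.natDegree := by
    obtain ⟨q, rfl⟩ := hp
    have hq : q ≠ 0 := right_ne_zero_of_mul hp0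
    rw [Polynomial.natDegree_mul (pow_ne_zero _ Polynomial.X_ne_zero) hq,
      Polynomial.natDegree_X_pow]
    omega
  set q : Polynomial K := -p with hq
  have hq0 : q ≠ 0 := neg_ne_zero.2 hp0
  have hqd : q.natDegree = p.natDegree := Polynomial.natDegree_neg p
  set N : ℕ := q.natDegree * n with hN
  have hnN : n < N := by
    rw [hN, hqd]
    nlinarith
  have hcd : (q.comp δ).natDegree = N := by
    rw [Polynomial.natDegree_comp, hδd]
  have hcc : (q.comp δ).coeff N ≠ 0 := by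
    have h4 : (q.comp δ).coeff N = (q.comp δ).leadingCoeff := by
      rw [Polynomial.leadingCoeff, hcd]
    rw [h4, Polynomial.leadingCoeff_comp (by rw [hδd]; omega)]
    refine mul_ne_zero (Polynomial.leadingCoeff_ne_zero.2 hq0) (pow_ne_zero _ ?_)
    rw [hδl]
    exact hd0
  have hco : ∀ i, (crv (sh (vec x) p) w i).coeff N = vec x i * (q.comp δ).coeff N := by
    intro i
    rw [crv_sh, Polynomial.coeff_add, Polynomial.coeff_C_mul,
      Polynomial.coeff_eq_zero_of_natDegree_lt ((h1 i).trans_lt hnN), zero_add]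
  refine ⟨N, by omega, ?_, ?_, ?_⟩
  · intro i
    rw [crv_sh]
    refine (Polynomial.natDegree_add_le _ _).trans (max_le ((h1 i).trans hnN.le) ?_)
    exact (Polynomial.natDegree_C_mul_le _ _).trans hcd.le
  · obtain ⟨i, hi⟩ := Function.ne_iff.1 (vec_ne x)
    refine ⟨i, ?_⟩
    rw [hco]
    exact mul_ne_zero hi hcc
  · rw [hco, hco]
    ring

/-- the action of a group of automorphisms on curves -/
@[reducible] noncomputable def act {G : Type} [Group G] (φ : G →* Aut2 K) :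
    MulAction G (Fin 2 → Polynomial K) where
  smul g w := crv (φ g) w
  one_smul w := by
    show crv (φ 1) w = w
    rw [map_one, crv_one]
  mul_smul g h w := by
    show crv (φ (g * h)) w = crv (φ g) (crv (φ h) w)
    rw [map_mul, crv_mul]

open Cardinal in
/-- the subgroups of shears generate their free product -/
theorem lift_inj {G : Type} [Group G] (φ : G →* Aut2 K) (A : Option K → Subgroup G)
    (h : ∀ x, ∀ a ∈ A x, a ≠ 1 → ∃ f : Polynomial K, Polynomial.X ^ 2 ∣ f ∧ f ≠ 0 ∧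
      φ a = sh (vec x) f) :
    Function.Injective (Monoid.CoprodI.lift fun i => (A i).subtype) := by
  let _ : MulAction G (Fin 2 → Polynomial K) := act φ
  refine Monoid.CoprodI.lift_injective_of_ping_pong (fun i => (A i).subtype) ?_
    (fun x => {w | Ld (vec x) w}) ?_ ?_ ?_
  · left
    have h1 : Function.Injective (fun i : Fin 3 => (![none, some 0, some 1] i : Option K)) := by
      intro i j hij
      fin_cases i <;> fin_cases j <;> simp_all
    have h2 := Cardinal.mk_le_of_injective h1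
    simpa using h2
  · intro x
    refine ⟨fun i => Polynomial.C (vec x i) * Polynomial.X, 1, le_rfl, ?_, ?_, ?_⟩
    · intro i
      exact (Polynomial.natDegree_C_mul_le _ _).trans Polynomial.natDegree_X_le
    · obtain ⟨i, hi⟩ := Function.ne_iff.1 (vec_ne x)
      exact ⟨i, by simpa using hi⟩
    · simp
      ring
  · intro x y hxy
    rw [Function.onFun, Set.disjoint_left]
    intro w hx hy
    exact hxy (Ld_unique hx hy)
  · intro x y hxy a ha
    rintro _ ⟨w, hw, rfl⟩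
    have ha' : (a : G) ≠ 1 := fun h1 => ha (Subtype.ext h1)
    obtain ⟨f, hf, hf0, hfa⟩ := h x a a.2 ha'
    show Ld (vec x) (crv (φ a) w)
    rw [hfa]
    exact Ld_move hxy hw hf hf0

section fib

variable {H : Type} [Group H] (ρ : H →* GL (Fin 2) K)

/-- the pairs of a tame automorphism that fixes the origin and an element of `H`, with the same
linear part -/
noncomputable def Fb : Subgroup (Aut2 K × H) where
  carrier := {p | p.1 ∈ MG K ∧ ∃ hs : p.1 ∈ St K, lin K ⟨p.1, hs⟩ = ρ p.2}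
  one_mem' := ⟨one_mem _, one_mem _, by
    rw [Prod.snd_one, map_one]
    exact map_one (lin K)⟩
  mul_mem' := by
    rintro p q ⟨h1, s1, e1⟩ ⟨h2, s2, e2⟩
    refine ⟨mul_mem h1 h2, mul_mem s1 s2, ?_⟩
    show lin K (⟨p.1, s1⟩ * ⟨q.1, s2⟩) = ρ (p.2 * q.2)
    rw [map_mul, map_mul, e1, e2]
  inv_mem' := by
    rintro p ⟨h1, s1, e1⟩
    refine ⟨inv_mem h1, inv_mem s1, ?_⟩
    show lin K (⟨p.1, s1⟩⁻¹) = ρ p.2⁻¹
    rw [map_inv, map_inv, e1]

/-- the projection to `H` -/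
noncomputable def qH : Fb ρ →* H := (MonoidHom.snd _ _).comp (Fb ρ).subtype

/-- the projection to the automorphisms -/
noncomputable def qG : Fb ρ →* Aut2 K := (MonoidHom.fst _ _).comp (Fb ρ).subtype

theorem qH_surj : Function.Surjective (qH ρ) := fun h =>
  ⟨⟨(la (ρ h), h), la_mem_MG _, la_mem _, lin_la _⟩, rfl⟩

theorem q_ext {p q : Fb ρ} (h1 : qG ρ p = qG ρ q) (h2 : qH ρ p = qH ρ q) : p = q :=
  Subtype.ext (Prod.ext h1 h2)

/-- the factor of the free product -/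
noncomputable def Ax (x : Option K) : Subgroup (Fb ρ) where
  carrier := {p | qH ρ p = 1 ∧ ∃ f : Polynomial K, Polynomial.X ^ 2 ∣ f ∧ qG ρ p = sh (vec x) f}
  one_mem' := ⟨map_one _, 0, dvd_zero _, by rw [sh_zero, map_one]⟩
  mul_mem' := by
    rintro p q ⟨h1, f, hf, h2⟩ ⟨k1, g, hg, k2⟩
    exact ⟨by rw [map_mul, h1, k1, one_mul], f + g, dvd_add hf hg, by rw [map_mul, h2, k2, sh_mul]⟩
  inv_mem' := by
    rintro p ⟨h1, f, hf, h2⟩
    exact ⟨by rw [map_inv, h1, inv_one], -f, hf.neg_right, by rw [map_inv, h2, sh_inv]⟩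

theorem sh_mem_Fb {f : Polynomial K} (hf : Polynomial.X ^ 2 ∣ f) (v : Fin 2 → K) :
    (sh v f, (1 : H)) ∈ Fb ρ := by
  have h1 : sh v f ∈ St K := sh_mem ((dvd_pow_self _ two_ne_zero).trans hf) _
  exact ⟨Mg_le (sh_mem_Mg hf v), h1, by rw [map_one]; exact lin_sh hf v h1⟩

theorem Ax_isFreeProd : IsFreeProd (qH ρ).ker (Ax ρ) := by
  have hle : ⨆ x, Ax ρ x ≤ (qH ρ).ker := iSup_le fun x p hp => hp.1
  refine ⟨le_antisymm hle ?_, ?_⟩
  · intro p hp
    have hp1 : qH ρ p = 1 := hp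
    have h2 : qG ρ p ∈ Mg K := by
      obtain ⟨h1, s1, e1⟩ := p.2
      refine ker_MG h1 s1 (e1.trans ?_)
      have : p.1.2 = 1 := hp1
      rw [this, map_one]
    have h3 : Mg K ≤ (⨆ x, Ax ρ x).map (qG ρ) := by
      rw [Mg, Subgroup.closure_le]
      rintro _ ⟨x, f, hf, rfl⟩
      exact ⟨⟨_, sh_mem_Fb ρ hf _⟩, Subgroup.mem_iSup_of_mem x ⟨rfl, f, hf, rfl⟩, rfl⟩
    obtain ⟨q, hq, hqp⟩ := h3 h2
    have h5 : q = p := q_ext ρ hqp ((show qH ρ q = 1 from hle hq).trans hp1.symm)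
    rwa [h5] at hq
  · refine lift_inj (qG ρ) (Ax ρ) ?_
    rintro x a ⟨h1, f, hf, h2⟩ hne
    refine ⟨f, hf, ?_, h2⟩
    rintro rfl
    apply hne
    apply q_ext
    · rw [h2, sh_zero, map_one]
    · rw [h1, map_one]

theorem conj_line (g : GL (Fin 2) K) {x y : Option K} {a : K}
    (h : (g⁻¹).valᵀ *ᵥ vec x = a • vec y) {f : Polynomial K} (hf : Polynomial.X ^ 2 ∣ f) :
    ∃ f' : Polynomial K, Polynomial.X ^ 2 ∣ f' ∧
      la g * sh (vec x) f * (la g)⁻¹ = sh (vec y) f' := by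
  refine ⟨_, sq_dvd_comp (sq_dvd_comp' hf g.val.det) a a, ?_⟩
  rw [la_sh, h, sh_smul]

theorem Ax_conj (g : Fb ρ) (x : Option K) : ∃ y, ∃ n ∈ (qH ρ).ker, ∀ p,
    p ∈ Ax ρ x ↔ n * (g * p * g⁻¹) * n⁻¹ ∈ Ax ρ y := by
  obtain ⟨γ, hγ⟩ : ∃ γ, γ = ρ (qH ρ g) := ⟨_, rfl⟩
  have ht1 : γ.valᵀ * (γ⁻¹).valᵀ = 1 := by
    rw [← Matrix.transpose_mul, ← Units.val_mul, inv_mul_cancel, Units.val_one,
      Matrix.transpose_one]
  have hne : (γ⁻¹).valᵀ *ᵥ vec x ≠ 0 := by
    intro h4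
    apply vec_ne x
    have h5 : γ.valᵀ *ᵥ ((γ⁻¹).valᵀ *ᵥ vec x) = vec x := by
      rw [Matrix.mulVec_mulVec, ht1, Matrix.one_mulVec]
    rw [← h5, h4, Matrix.mulVec_zero]
  obtain ⟨y, a, ha, hy⟩ := exists_vec hne
  have hy' : ((γ⁻¹)⁻¹).valᵀ *ᵥ vec y = a⁻¹ • vec x := by
    have h5 : γ.valᵀ *ᵥ ((γ⁻¹).valᵀ *ᵥ vec x) = vec x := by
      rw [Matrix.mulVec_mulVec, ht1, Matrix.one_mulVec]
    rw [hy, Matrix.mulVec_smul] at h5
    rw [inv_inv, ← h5, smul_smul, inv_mul_cancel₀ ha, one_smul]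
  obtain ⟨hg1, hg2, hg3⟩ := g.2
  have hg3' : lin K ⟨(qG ρ g), hg2⟩ = γ := by rw [hγ]; exact hg3
  have hn : (la γ * (qG ρ g)⁻¹, (1 : H)) ∈ Fb ρ := by
    refine ⟨mul_mem (la_mem_MG _) (inv_mem hg1), mul_mem (la_mem _) (inv_mem hg2), ?_⟩
    rw [map_one]
    show lin K (⟨la γ, la_mem γ⟩ * ⟨qG ρ g, hg2⟩⁻¹) = 1
    rw [map_mul, map_inv, hg3', lin_la, mul_inv_cancel]
  obtain ⟨n, hn'⟩ : ∃ n : Fb ρ, n = ⟨_, hn⟩ := ⟨_, rfl⟩
  have hnG : qG ρ n = la γ * (qG ρ g)⁻¹ := by rw [hn']; rfl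
  have hnH : qH ρ n = 1 := by rw [hn']; rfl
  refine ⟨y, n, hnH, fun p => ?_⟩
  have e1 : qG ρ (n * (g * p * g⁻¹) * n⁻¹) = la γ * qG ρ p * (la γ)⁻¹ := by
    simp only [map_mul, map_inv, hnG]
    group
  have e2 : qH ρ (n * (g * p * g⁻¹) * n⁻¹) = qH ρ g * qH ρ p * (qH ρ g)⁻¹ := by
    simp only [map_mul, map_inv, hnH]
    group
  constructor
  · rintro ⟨h1, f, hf, h2⟩
    obtain ⟨f', hf', h3⟩ := conj_line γ hy hf
    refine ⟨?_, f', hf', ?_⟩
    · rw [e2, h1]; group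
    · rw [e1, h2, h3]
  · rintro ⟨h1, f, hf, h2⟩
    rw [e2] at h1
    rw [e1] at h2
    obtain ⟨f', hf', h3⟩ := conj_line γ⁻¹ hy' hf
    refine ⟨?_, f', hf', ?_⟩
    · have : qH ρ p = (qH ρ g)⁻¹ * (qH ρ g * qH ρ p * (qH ρ g)⁻¹) * qH ρ g := by group
      rw [this, h1]; group
    · rw [← h3, ← h2, map_inv]
      group

/-- **the case of a field** -/
theorem fib_field {C : ∀ (G : Type) [Group G], Prop} (hC : ClosedE C) (hF : FbC C)
    (hS : ∀ (S : Type) [Group S], Group.IsSolvable S → C S) (hH : C H) : C (Fb ρ) := by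
  have hQ : C (Fb ρ ⧸ (qH ρ).ker) :=
    C_equiv hC.base (QuotientGroup.quotientKerEquivOfSurjective (qH ρ) (qH_surj ρ)) hH
  refine main_all hC hF hQ (Ax ρ) Set.univ (Ax_isFreeProd ρ) (fun i hi => absurd trivial hi) ?_ ?_
  · intro x _ g
    obtain ⟨y, n, hn, h⟩ := Ax_conj ρ g x
    exact ⟨y, trivial, n, hn, h⟩
  · intro x _ g hg
    refine hS _ (solv_sup (Ax ρ x) ?_ g hg)
    rintro p ⟨h1, f, hf, h2⟩ q ⟨k1, f', hf', k2⟩
    apply q_ext
    · rw [map_mul, map_mul, h2, k2, sh_comm]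
    · rw [map_mul, map_mul, h1, k1]

end fib

end Pool.Agent.K7.H10.PA
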