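import Pool.Agent.K7.H10.PA.Rg

/-!
# Groups with a finite orbit
-/

set_option autoImplicit false

namespace Pool.Agent.K7.H10.PA

open MvPolynomial Matrix Pool.Agent.Y110.FJ Pool.Agent.R684.FP

variable {C : ∀ (G : Type) [Group G], Prop}

theorem TA_bc {A B : Type} [CommRing A] [CommRing B] (f : A →+* B) {φ : Aut2 A} (h : φ ∈ TA A) :
    bc f φ ∈ TA B := by
  intro K _ g
  rw [bc_bc]
  exact h K (g.comp f)

theorem tr_tame {K : Type} [Field K] (b : Fin 2 → K) : tr b ∈ Tame K := by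
  refine Subgroup.subset_closure (Or.inl ⟨1, b, fun i => ?_⟩)
  rw [tr_X]
  congr 1
  rw [Finset.sum_eq_single i]
  · show X i = MvPolynomial.C ((1 : Matrix (Fin 2) (Fin 2) K) i i) * X i
    rw [Matrix.one_apply_eq, map_one, one_mul]
  · intro j _ hj
    show MvPolynomial.C ((1 : Matrix (Fin 2) (Fin 2) K) j i) * X j = 0
    rw [Matrix.one_apply_ne hj, map_zero, zero_mul]
  · intro h
    exact absurd (Finset.mem_univ i) h

theorem tr_TA {A : Type} [CommRing A] (b : Fin 2 → A) : tr b ∈ TA A := by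
  intro K _ f
  rw [bc_tr]
  exact tr_tame _

section one

variable {B : Type} [CommRing B]

theorem cc_tr (b : Fin 2 → B) (p : MvPolynomial (Fin 2) B) :
    constantCoeff (tr b p) = eval b p := by
  induction p using MvPolynomial.induction_on with
  | C a => rw [tr_C, constantCoeff_C, eval_C]
  | add p q hp hq => rw [map_add, map_add, map_add, hp, hq]
  | mul_X p i hp =>
    rw [map_mul, map_mul, map_mul, hp, tr_X, map_add, constantCoeff_X, constantCoeff_C, zero_add,
      eval_X]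

theorem lc_tr (b : Fin 2 → B) (j : Fin 2) (p : MvPolynomial (Fin 2) B) :
    lc j (tr b p) = eval b (pderiv j p) := by
  induction p using MvPolynomial.induction_on with
  | C a => rw [tr_C, lc_C, pderiv_C, map_zero]
  | add p q hp hq => rw [map_add, map_add, map_add, lc_add, hp, hq]
  | mul_X p i hp =>
    have h1 : lc j (tr b (X i)) = if i = j then 1 else 0 := by
      rw [tr_X, lc_add, lc_C, add_zero, lc_X]
    have h2 : eval b (pderiv j (X i : MvPolynomial (Fin 2) B)) = if i = j then 1 else 0 := by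
      rw [pderiv_X, Pi.single_apply]
      split_ifs with h
      · rw [map_one]
      · rw [map_zero]
    rw [map_mul, lc_mul, hp, cc_tr, cc_tr, h1, pderiv_mul, map_add, map_mul, map_mul, h2]

theorem conj_X (b : Fin 2 → B) (φ : Aut2 B) (i : Fin 2) :
    (tr b * φ * (tr b)⁻¹) (X i) = tr b (φ (X i)) + MvPolynomial.C (-(b i)) := by
  rw [tr_inv]
  have h1 : (tr b * φ * tr (-b)) (X i) = tr b (φ (tr (-b) (X i))) := rfl
  have h2 : φ (MvPolynomial.C (-(b i))) = MvPolynomial.C (-(b i)) := φ.commutes _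
  rw [h1, tr_X, map_add, Pi.neg_apply, h2, map_add, tr_C]

theorem conj_mem (b : Fin 2 → B) {φ : Aut2 B} (h : ∀ i, eval b (φ (X i)) = b i) :
    tr b * φ * (tr b)⁻¹ ∈ St B := by
  rw [mem_St]
  intro i
  rw [conj_X, map_add, cc_tr, h, constantCoeff_C, add_neg_cancel]

theorem lc_conj (b : Fin 2 → B) (φ : Aut2 B) (i j : Fin 2) :
    lc j ((tr b * φ * (tr b)⁻¹) (X i)) = eval b (pderiv j (φ (X i))) := by
  rw [conj_X, lc_add, lc_C, add_zero, lc_tr]

end one

section orbit

variable {A B : Type} [CommRing A] [CommRing B]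

/-- the image of the point `b` with coordinates in the `A`-algebra `B` -/
noncomputable def pt (f : A →+* B) (b : Fin 2 → B) (φ : Aut2 A) : Fin 2 → B :=
  fun i => eval₂ f b (φ (X i))

theorem pt_one (f : A →+* B) (b : Fin 2 → B) : pt f b 1 = b := by
  funext i
  show eval₂ f b (X i) = b i
  rw [eval₂_X]

theorem pt_eval (f : A →+* B) (b : Fin 2 → B) (φ : Aut2 A) (p : MvPolynomial (Fin 2) A) :
    eval₂ f b (φ p) = eval₂ f (pt f b φ) p := by
  have h1 : (eval₂Hom f b).comp (φ : MvPolynomial (Fin 2) A →+* MvPolynomial (Fin 2) A) =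
      eval₂Hom f (pt f b φ) := by
    apply MvPolynomial.ringHom_ext
    · intro a
      show eval₂ f b (φ (MvPolynomial.C a)) = eval₂ f (pt f b φ) (MvPolynomial.C a)
      have h2 : φ (MvPolynomial.C a) = MvPolynomial.C a := φ.commutes a
      rw [h2, eval₂_C, eval₂_C]
    · intro i
      show eval₂ f b (φ (X i)) = eval₂ f (pt f b φ) (X i)
      rw [eval₂_X]
      rfl
  exact DFunLike.congr_fun h1 p

theorem pt_mul (f : A →+* B) (b : Fin 2 → B) (φ ψ : Aut2 A) :
    pt f b (φ * ψ) = pt f (pt f b φ) ψ := by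
  funext i
  exact pt_eval f b φ (ψ (X i))

/-- the stabilizer of a point -/
noncomputable def stab (f : A →+* B) (b : Fin 2 → B) (G : Subgroup (Aut2 A)) : Subgroup G where
  carrier := {φ | pt f b φ.1 = b}
  one_mem' := pt_one f b
  mul_mem' := by
    intro φ ψ h1 h2
    show pt f b (φ.1 * ψ.1) = b
    rw [pt_mul, h1, h2]
  inv_mem' := by
    intro φ h
    show pt f b φ.1⁻¹ = b
    have h1 : pt f (pt f b φ.1) φ.1⁻¹ = b := by rw [← pt_mul, mul_inv_cancel, pt_one]
    rwa [show pt f b φ.1 = b from h] at h1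

theorem stab_index (f : A →+* B) (b : Fin 2 → B) (G : Subgroup (Aut2 A))
    (h : {c : Fin 2 → B | ∃ φ ∈ G, c = pt f b φ}.Finite) : (stab f b G).FiniteIndex := by
  have hfin : Finite {c : Fin 2 → B | ∃ φ ∈ G, c = pt f b φ} := h
  have hq : Finite (G ⧸ stab f b G) := by
    refine Finite.of_injective (β := {c : Fin 2 → B | ∃ φ ∈ G, c = pt f b φ})
      (Quotient.lift (fun φ : G => ⟨pt f b (φ⁻¹).1, (φ⁻¹).1, (φ⁻¹).2, rfl⟩) ?_) ?_
    · intro φ ψ hφ
      have h1 : φ⁻¹ * ψ ∈ stab f b G := QuotientGroup.leftRel_apply.1 hφ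
      have h2 : pt f b (φ⁻¹ * ψ).1 = b := h1
      apply Subtype.ext
      show pt f b (φ⁻¹).1 = pt f b (ψ⁻¹).1
      have h3 : (φ⁻¹).1 = (φ⁻¹ * ψ).1 * (ψ⁻¹).1 := by
        rw [← Subgroup.coe_mul, mul_inv_cancel_right]
      rw [h3, pt_mul, h2]
    · intro x y
      refine Quotient.inductionOn₂' x y ?_
      intro φ ψ hφ
      apply Quotient.sound'
      rw [QuotientGroup.leftRel_apply]
      have h1 : pt f b (φ⁻¹).1 = pt f b (ψ⁻¹).1 := congrArg Subtype.val hφ
      show pt f b (φ⁻¹ * ψ).1 = b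
      rw [Subgroup.coe_mul, pt_mul, h1, ← pt_mul, ← Subgroup.coe_mul, inv_mul_cancel]
      exact pt_one f b
  exact Subgroup.finiteIndex_of_finite_quotient

theorem orbit (hC : ClosedE C) (hF : FbC C)
    (hS : ∀ (S : Type) [Group S], Group.IsSolvable S → C S) (f : A →+* B)
    (hf : Function.Injective f) (b : Fin 2 → B) (G : Subgroup (Aut2 A)) (hG : G ≤ TA A)
    (hfin : {c : Fin 2 → B | ∃ φ ∈ G, c = pt f b φ}.Finite)
    (H : Subgroup (GL (Fin 2) B)) (hH : C H)
    (hder : ∀ φ ∈ G, pt f b φ = b →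
      ∃ h ∈ H, ∀ i j, h.val j i = eval₂ f b (pderiv j (φ (X i)))) : C G := by
  refine hC.base.finiteIndex G (stab f b G) (stab_index f b G hfin) ?_
  let a : stab f b G →* Aut2 B :=
    (MulAut.conj (tr b)).toMonoidHom.comp ((bc f).comp (G.subtype.comp (stab f b G).subtype))
  have ha : ∀ φ : stab f b G, a φ = tr b * bc f φ.1.1 * (tr b)⁻¹ := fun φ => rfl
  have haS : ∀ φ : stab f b G, a φ ∈ St B := by
    intro φ
    rw [ha]
    apply conj_mem
    intro i
    rw [bc_X, eval_map]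
    exact congrFun φ.2 i
  have haT : ∀ φ : stab f b G, a φ ∈ TA B := by
    intro φ
    rw [ha]
    exact mul_mem (mul_mem (tr_TA b) (TA_bc f (hG φ.1.2))) (inv_mem (tr_TA b))
  have haH : ∀ φ : stab f b G, lin B ⟨a φ, haS φ⟩ ∈ H := by
    intro φ
    obtain ⟨h, hh, he⟩ := hder φ.1.1 φ.1.2 φ.2
    have h1 : lin B ⟨a φ, haS φ⟩ = h := by
      apply Units.ext
      ext j i
      rw [lin_val, he i j]
      show lc j ((a φ) (X i)) = _
      rw [ha, lc_conj, bc_X, pderiv_map, eval_map]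
    rw [h1]
    exact hh
  let d : stab f b G →* H :=
    ((lin B).comp (a.codRestrict (St B) haS)).codRestrict H haH
  refine hC.base.of_injective _ _ ((a.prod d).codRestrict (FL H.subtype) ?_) ?_
    (fib_all hC hF hS hH H.subtype)
  · intro φ
    exact ⟨haT φ, haS φ, rfl⟩
  · intro φ ψ h
    have h1 : a φ = a ψ := congrArg (fun q : FL H.subtype => q.1.1) h
    rw [ha, ha] at h1
    have h2 : bc f φ.1.1 = bc f ψ.1.1 := mul_left_cancel (mul_right_cancel h1)
    exact Subtype.ext (Subtype.ext (bc_injective hf h2))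

/-- the Jacobian matrix at a fixed point is invertible -/
theorem exists_der (f : A →+* B) (b : Fin 2 → B) (φ : Aut2 A) (h : pt f b φ = b) :
    ∃ g : GL (Fin 2) B, ∀ i j, g.val j i = eval₂ f b (pderiv j (φ (X i))) := by
  have h1 : tr b * bc f φ * (tr b)⁻¹ ∈ St B := by
    apply conj_mem
    intro i
    rw [bc_X, eval_map]
    exact congrFun h i
  refine ⟨lin B ⟨_, h1⟩, fun i j => ?_⟩
  rw [lin_val]
  show lc j ((tr b * bc f φ * (tr b)⁻¹) (X i)) = _
  rw [lc_conj, bc_X, pderiv_map, eval_map]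

theorem orbit_GL (hC : ClosedE C) (hF : FbC C)
    (hS : ∀ (S : Type) [Group S], Group.IsSolvable S → C S) (f : A →+* B)
    (hf : Function.Injective f) (b : Fin 2 → B) (G : Subgroup (Aut2 A)) (hG : G ≤ TA A)
    (hfin : {c : Fin 2 → B | ∃ φ ∈ G, c = pt f b φ}.Finite) (hB : C (GL (Fin 2) B)) : C G := by
  refine orbit hC hF hS f hf b G hG hfin ⊤
    (Pool.Agent.R941.FJ.C_equiv hC.base Subgroup.topEquiv hB) ?_
  intro φ _ h
  obtain ⟨g, hg⟩ := exists_der f b φ h
  exact ⟨g, Subgroup.mem_top _, hg⟩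

end orbit

end Pool.Agent.K7.H10.PA
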