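import Pool.Agent.K7.H10.PA.Bc
import Mathlib

/-!
# Automorphisms that are congruent to the identity modulo a nilpotent ideal
-/

set_option autoImplicit false

namespace Pool.Agent.K7.H10.PA

open MvPolynomial

section nil

variable {B : Type} [CommRing B]

theorem map_mk_eq_zero (J : Ideal B) (p : MvPolynomial (Fin 2) B) :
    map (Ideal.Quotient.mk J) p = 0 ↔ ∀ m, coeff m p ∈ J := by
  constructor
  · intro h m
    have h1 := congrArg (coeff m) h
    rw [coeff_map, coeff_zero] at h1
    exact Ideal.Quotient.eq_zero_iff_mem.1 h1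
  · intro h
    ext m
    rw [coeff_map, coeff_zero]
    exact Ideal.Quotient.eq_zero_iff_mem.2 (h m)

theorem mem_ker_bc (J : Ideal B) (φ : Aut2 B) :
    φ ∈ (bc (Ideal.Quotient.mk J)).ker ↔ ∀ i m, coeff m (φ (X i) - X i) ∈ J := by
  rw [MonoidHom.mem_ker]
  constructor
  · intro h i
    rw [← map_mk_eq_zero, map_sub, ← bc_X, h, map_X]
    exact sub_self _
  · intro h
    apply aut_ext
    intro i
    have h1 := (map_mk_eq_zero J (φ (X i) - X i)).2 (h i)
    rw [map_sub, sub_eq_zero, map_X] at h1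
    rw [bc_X, h1]
    rfl

theorem sub_mem {I : Ideal B} {φ : Aut2 B} (h : ∀ i, φ (X i) - X i ∈ I.map (C (σ := Fin 2)))
    (p : MvPolynomial (Fin 2) B) : φ p - p ∈ I.map (C (σ := Fin 2)) := by
  obtain ⟨J, hJ⟩ : ∃ J, J = I.map (C (R := B) (σ := Fin 2)) := ⟨_, rfl⟩
  rw [← hJ] at h ⊢
  have h1 : (Ideal.Quotient.mk J).comp
      (φ : MvPolynomial (Fin 2) B →+* MvPolynomial (Fin 2) B) = Ideal.Quotient.mk J := by
    apply MvPolynomial.ringHom_ext
    · intro a
      show Ideal.Quotient.mk J (φ (C a)) = _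
      have : φ (C a) = C a := φ.commutes a
      rw [this]
    · intro i
      show Ideal.Quotient.mk J (φ (X i)) = _
      exact Ideal.Quotient.eq.2 (h i)
  exact Ideal.Quotient.eq.1 (DFunLike.congr_fun h1 p)

theorem fix_mem {I : Ideal B} (hI : ∀ x ∈ I, ∀ y ∈ I, x * y = 0) {φ : Aut2 B}
    (h : ∀ i, φ (X i) - X i ∈ I.map (C (σ := Fin 2))) {b : MvPolynomial (Fin 2) B}
    (hb : b ∈ I.map (C (σ := Fin 2))) : φ b = b := by
  have hz : ∀ x ∈ I.map (C (R := B) (σ := Fin 2)), ∀ y ∈ I, x * C y = 0 := by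
    intro x hx y hy
    ext m
    rw [mul_comm, coeff_C_mul, coeff_zero]
    exact hI _ hy _ (mem_map_C_iff.1 hx m)
  have h2 : I.map (C (R := B) (σ := Fin 2)) = Ideal.span (C '' (I : Set B)) := rfl
  rw [h2] at hb
  induction hb using Submodule.span_induction with
  | mem x hx =>
    obtain ⟨y, hy, rfl⟩ := hx
    exact φ.commutes y
  | zero => exact map_zero φ
  | add x y hx hy h3 h4 => rw [map_add, h3, h4]
  | smul r x hx h3 =>
    have h4 : φ (r * x) = φ r * φ x := map_mul φ r x
    have h5 : (φ r - r) * x = 0 := by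
      have h6 := sub_mem h r
      clear h3 h4
      induction hx using Submodule.span_induction with
      | mem x hx =>
        obtain ⟨y, hy, rfl⟩ := hx
        exact hz _ h6 y hy
      | zero => exact mul_zero _
      | add x y hx hy h3 h4 => rw [mul_add, h3, h4, add_zero]
      | smul s x hx h3 =>
        rw [smul_eq_mul, mul_left_comm, h3, mul_zero]
    rw [smul_eq_mul, h4, h3]
    exact sub_eq_zero.1 (by rw [← sub_mul]; exact h5)

theorem comm_nil {I : Ideal B} (hI : ∀ x ∈ I, ∀ y ∈ I, x * y = 0) {φ ψ : Aut2 B}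
    (h : ∀ i m, coeff m (φ (X i) - X i) ∈ I) (h' : ∀ i m, coeff m (ψ (X i) - X i) ∈ I) :
    φ * ψ = ψ * φ := by
  have g : ∀ i, φ (X i) - X i ∈ I.map (C (σ := Fin 2)) := fun i => mem_map_C_iff.2 (h i)
  have g' : ∀ i, ψ (X i) - X i ∈ I.map (C (σ := Fin 2)) := fun i => mem_map_C_iff.2 (h' i)
  apply aut_ext
  intro i
  have e1 : (φ * ψ) (X i) = φ (ψ (X i)) := rfl
  have e2 : (ψ * φ) (X i) = ψ (φ (X i)) := rfl
  have e3 : φ (ψ (X i) - X i) = ψ (X i) - X i := fix_mem hI g (g' i)
  have e4 : ψ (φ (X i) - X i) = φ (X i) - X i := fix_mem hI g' (g i)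
  rw [map_sub] at e3 e4
  rw [e1, e2]
  linear_combination e3 - e4

end nil

/-- congruence subgroups modulo nilpotent ideals are solvable -/
theorem nil_solv : ∀ (n : ℕ) (B : Type) [CommRing B] (J : Ideal B), J ^ n = ⊥ →
    Group.IsSolvable (bc (Ideal.Quotient.mk J)).ker := by
  intro n
  induction n with
  | zero =>
    intro B _ J hJ
    have h1 : (⊤ : Ideal B) = ⊥ := by rw [← hJ, pow_zero, Ideal.one_eq_top]
    have h2 : ∀ a b : B, a = b := by
      intro a b
      have ha : a - b ∈ (⊤ : Ideal B) := trivial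
      rw [h1, Ideal.mem_bot] at ha
      exact sub_eq_zero.1 ha
    refine Group.isSolvable_of_comm fun a b => ?_
    apply Subtype.ext
    apply aut_ext
    intro i
    ext m
    exact h2 _ _
  | succ n ih =>
    intro B _ J hJ
    rcases Nat.eq_zero_or_pos n with hn | hn
    · subst hn
      rw [zero_add, pow_one] at hJ
      have h3 : ∀ a : (bc (Ideal.Quotient.mk J)).ker, a = 1 := by
        intro a
        apply Subtype.ext
        apply aut_ext
        intro i
        have h4 := (mem_ker_bc J a.1).1 a.2 i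
        have h5 : a.1 (X i) - X i = 0 := by
          ext m
          rw [coeff_zero]
          have h6 : coeff m (a.1 (X i) - X i) ∈ (⊥ : Ideal B) := hJ.le (h4 m)
          exact (Ideal.mem_bot).1 h6
        exact sub_eq_zero.1 h5
      refine Group.isSolvable_of_comm fun a b => ?_
      rw [h3 a, h3 b]
    · obtain ⟨I, hI⟩ : ∃ I : Ideal B, I = J ^ n := ⟨_, rfl⟩
      have hI2 : ∀ x ∈ I, ∀ y ∈ I, x * y = 0 := by
        intro x hx y hy
        rw [hI] at hx hy
        have h1 : x * y ∈ J ^ (n + n) := by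
          rw [pow_add]
          exact Ideal.mul_mem_mul hx hy
        have h2 : J ^ (n + n) ≤ J ^ (n + 1) := Ideal.pow_le_pow_right (by omega)
        have h3 := h2 h1
        rwa [hJ, Ideal.mem_bot] at h3
      obtain ⟨J', hJ'⟩ : ∃ J' : Ideal (B ⧸ I), J' = J.map (Ideal.Quotient.mk I) := ⟨_, rfl⟩
      have hJn : J' ^ n = ⊥ := by
        rw [hJ', ← Ideal.map_pow, ← hI, Ideal.map_quotient_self]
      have hs := ih (B ⧸ I) J' hJn
      have hmem : ∀ k : (bc (Ideal.Quotient.mk J)).ker,
          bc (Ideal.Quotient.mk I) k.1 ∈ (bc (Ideal.Quotient.mk J')).ker := by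
        intro k
        rw [mem_ker_bc]
        intro i m
        have h4 := Ideal.mem_map_of_mem (Ideal.Quotient.mk I) ((mem_ker_bc J k.1).1 k.2 i m)
        rw [← hJ', ← coeff_map, map_sub, ← bc_X, map_X] at h4
        exact h4
      let f : (bc (Ideal.Quotient.mk J)).ker →* (bc (Ideal.Quotient.mk J')).ker :=
        ((bc (Ideal.Quotient.mk I)).comp (Subgroup.subtype _)).codRestrict _ hmem
      have hker : Group.IsSolvable f.ker := by
        refine Group.isSolvable_of_comm fun a b => ?_
        have hk : ∀ a : f.ker, ∀ i m, coeff m (a.1.1 (X i) - X i) ∈ I := by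
          intro a
          rw [← mem_ker_bc]
          have h6 : f a.1 = 1 := a.2
          exact congrArg Subtype.val h6
        apply Subtype.ext
        apply Subtype.ext
        exact comm_nil hI2 (hk a) (hk b)
      exact Group.isSolvable_of_ker_le_range f.ker.subtype f (by rw [Subgroup.range_subtype])

end Pool.Agent.K7.H10.PA
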