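import Pool.Agent.K7.H10.PA.Main

/-!
# The origin; locally finite rings
-/

set_option autoImplicit false

namespace Pool.Agent.K7.H10.PA

open MvPolynomial Matrix Pool.Agent.Y110.FJ Pool.Agent.R684.FP

variable {C : ∀ (G : Type) [Group G], Prop}

section origin

variable {A : Type} [CommRing A]

/-- the automorphisms that fix the origin -/
theorem origin_iff (hC : ClosedE C) (hF : FbC C)
    (hS : ∀ (S : Type) [Group S], Group.IsSolvable S → C S) :
    C (GL (Fin 2) A) ↔ C ↥(St A ⊓ TA A) := by
  constructor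
  · intro h
    let d : ↥(St A ⊓ TA A) →* St A := Subgroup.inclusion inf_le_left
    refine hC.base.of_injective _ _ (((St A ⊓ TA A).subtype.prod ((lin A).comp d)).codRestrict
      (FL (MonoidHom.id (GL (Fin 2) A))) ?_) ?_ (fib_all hC hF hS h (MonoidHom.id _))
    · intro φ
      exact ⟨φ.2.2, φ.2.1, rfl⟩
    · intro φ ψ h
      exact Subtype.ext (congrArg (fun q : FL (MonoidHom.id (GL (Fin 2) A)) => q.1.1) h)
  · intro h
    refine hC.base.of_injective _ _ (la.codRestrict (St A ⊓ TA A) fun g =>
      ⟨la_mem g, la_TA g⟩) ?_ h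
    intro g k hgk
    have h1 : la g = la k := congrArg Subtype.val hgk
    have h2 : (⟨la g, la_mem g⟩ : St A) = ⟨la k, la_mem k⟩ := Subtype.ext h1
    have h3 := congrArg (fun φ : St A => lin A φ) h2
    exact (lin_la g).symm.trans (h3.trans (lin_la k))

/-- the automorphisms in `TA A` that are defined over a subring -/
noncomputable def TS (S : Subring A) : Subgroup (Aut2 A) := (bc S.subtype).range ⊓ TA A

theorem TS_mono {S T : Subring A} (h : S ≤ T) : TS S ≤ TS T := by
  rintro φ ⟨⟨g, hg⟩, h2⟩
  refine ⟨⟨bc (Subring.inclusion h) g, ?_⟩, h2⟩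
  rw [← hg, bc_bc]
  rfl

theorem TS_fin (hC : ClosedE C) (hF : FbC C)
    (hS : ∀ (S : Type) [Group S], Group.IsSolvable S → C S) (S : Subring A) [Finite S] :
    C (TS S) := by
  refine orbit hC hF hS (RingHom.id A) Function.injective_id 0 _ inf_le_right ?_
    (GeneralLinearGroup.map S.subtype).range ?_ ?_
  · refine (Set.finite_range fun c : Fin 2 → S => fun i => S.subtype (c i)).subset ?_
    rintro c ⟨φ, ⟨⟨g, hg⟩, -⟩, rfl⟩
    refine ⟨fun i => constantCoeff (g (X i)), ?_⟩
    funext i
    show S.subtype (constantCoeff (g (X i))) = eval₂ (RingHom.id A) 0 (φ (X i))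
    rw [← constantCoeff_map, ← bc_X, hg]
    exact (eval₂_zero_apply (RingHom.id A) (φ (X i))).symm
  · have hfin2 : Finite (GL (Fin 2) S) := inferInstance
    exact Pool.Agent.Y430.SS.of_finite hC.base _
      (Finite.of_surjective _ (GeneralLinearGroup.map S.subtype).rangeRestrict_surjective)
  · rintro φ ⟨⟨g, hg⟩, -⟩ h
    have h1 : g ∈ St S := by
      rw [mem_St]
      intro i
      have h2 : eval₂ (RingHom.id A) 0 (φ (X i)) = 0 := congrFun h i
      rw [eval₂_zero_apply, ← hg, bc_X, constantCoeff_map] at h2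
      exact S.subtype_injective (by rw [map_zero]; exact h2)
    refine ⟨GeneralLinearGroup.map S.subtype (lin S ⟨g, h1⟩), ⟨_, rfl⟩, fun i j => ?_⟩
    have h3 : lc j (φ (X i)) = eval₂ (RingHom.id A) 0 (pderiv j (φ (X i))) := by
      have h4 := lc_tr (0 : Fin 2 → A) j (φ (X i))
      rw [tr_zero] at h4
      exact h4
    rw [← h3, ← hg, bc_X, lc_map]
    rfl

theorem exists_TS (φ : Aut2 A) (hφ : φ ∈ TA A) :
    ∃ s : Finset A, φ ∈ TS (Subring.closure (s : Set A)) := by
  classical
  obtain ⟨ψ, hψ⟩ : ∃ ψ : Aut2 A, ψ = φ⁻¹ := ⟨_, rfl⟩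
  let s : Finset A := Finset.univ.biUnion fun q : Fin 2 => (φ (X q)).coeffs ∪ (ψ (X q)).coeffs
  have hs : ∀ a ∈ s, a ∈ Subring.closure (s : Set A) := fun a ha =>
    Subring.subset_closure (Finset.mem_coe.2 ha)
  have key : ∀ (r : MvPolynomial (Fin 2) A), r.coeffs ⊆ s →
      ∀ m, coeff m r ∈ Subring.closure (s : Set A) := by
    intro r hr m
    by_cases h0 : coeff m r = 0
    · rw [h0]
      exact zero_mem _
    · exact hs _ (hr (coeff_mem_coeffs m h0))
  refine ⟨s, ⟨mem_range_bc _ _ (fun i => key _ ?_) (fun i => ?_), hφ⟩⟩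
  · intro a ha
    exact Finset.mem_biUnion.2 ⟨i, Finset.mem_univ _, Finset.mem_union_left _ ha⟩
  · rw [← hψ]
    refine key _ ?_
    intro a ha
    exact Finset.mem_biUnion.2 ⟨i, Finset.mem_univ _, Finset.mem_union_right _ ha⟩

/-- rings all of whose finitely generated subrings are finite -/
theorem locfin (hC : ClosedE C) (hF : FbC C)
    (hS : ∀ (S : Type) [Group S], Group.IsSolvable S → C S)
    (hA : ∀ s : Finset A, Finite (Subring.closure (s : Set A))) : C (TA A) := by
  classical
  refine Pool.Agent.Y430.SS.of_directed hC.base (TA A) (Finset A)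
    (fun i j => ⟨i ∪ j, Finset.subset_union_left, Finset.subset_union_right⟩)
    (fun s => (TS (Subring.closure (s : Set A))).comap (TA A).subtype)
    (fun s t h => Subgroup.comap_mono (TS_mono (Subring.closure_mono (by exact_mod_cast h)))) ?_ ?_
  · intro p
    exact exists_TS p.1 p.2
  · intro s
    have hfin := hA s
    have h1 := TS_fin hC hF hS (Subring.closure (s : Set A))
    refine hC.base.of_injective _ _ (((TA A).subtype.comp (Subgroup.subtype _)).codRestrict
      (TS (Subring.closure (s : Set A))) fun p => p.2) ?_ h1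
    intro p q hpq
    exact Subtype.ext (Subtype.ext (congrArg
      (fun q : TS (Subring.closure (s : Set A)) => q.1) hpq))

end origin

/-- the orbit of the point `b` under the group `G` is finite -/
def FinOrb {A B : Type} [CommRing A] [CommRing B] (f : A →+* B) (b : Fin 2 → B)
    (G : Subgroup (Aut2 A)) : Prop := {c : Fin 2 → B | ∃ φ ∈ G, c = pt f b φ}.Finite

/-- the Jacobian matrices at `b` of the elements of `G` that fix `b` are in `H` -/
def JacIn {A B : Type} [CommRing A] [CommRing B] (f : A →+* B) (b : Fin 2 → B)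
    (G : Subgroup (Aut2 A)) (H : Subgroup (GL (Fin 2) B)) : Prop :=
  ∀ φ ∈ G, pt f b φ = b → ∃ h ∈ H, ∀ i j, h.val j i = eval₂ f b (pderiv j (φ (X i)))

/-- the automorphisms in `TA A` that fix the origin -/
noncomputable def PA (A : Type) [CommRing A] : Subgroup (Aut2 A) := St A ⊓ TA A

/-- all finitely generated subrings are finite -/
def LocFin (A : Type) [CommRing A] : Prop := ∀ s : Finset A, Finite (Subring.closure (s : Set A))

end Pool.Agent.K7.H10.PA
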