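import Pool.Agent.K7.H10.PA.Org
import Pool.Agent.K7.H87.FJ2.Main

/-!
# Polynomial rings
-/

set_option autoImplicit false

namespace Pool.Agent.K7.H10.PA

open Pool.Agent.Y110.FJ Pool.Agent.R684.FP
open Pool.Agent.K7.H87.FJ2 (gl_iff poly_iff)

theorem poly_GL {C : ∀ (G : Type) [Group G], Prop} (hC : ClosedE C) (hF : FbC C)
    (hS : ∀ (S : Type) [Group S], Group.IsSolvable S → C S) (σ R : Type) [CommRing R]
    (h : C (GL (Fin 2) R)) : C (GL (Fin 2) (MvPolynomial σ R)) := by
  have h1 : C (GL (Fin 2) R) ↔ C (GL (Fin 2) (MvPolynomial σ R)) :=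
    gl_iff hC MvPolynomial.constantCoeff MvPolynomial.C
      (fun r => MvPolynomial.constantCoeff_C σ r) (poly_iff hC hF hS _)
  exact h1.1 h

theorem poly_St (C : ∀ (G : Type) [Group G], Prop) (hC : ClosedE C) (hF : FbC C)
    (hS : ∀ (S : Type) [Group S], Group.IsSolvable S → C S) (σ R : Type) [CommRing R]
    (h : C (GL (Fin 2) R)) :
    C (PA (MvPolynomial σ R)) := by
  have h1 := poly_GL hC hF hS σ R h
  have key : ∀ (A : Type) [CommRing A], C (GL (Fin 2) A) → C (PA A) :=
    fun A _ h => (origin_iff hC hF hS).1 h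
  exact key _ h1

end Pool.Agent.K7.H10.PA
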