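import Pool.Agent.K7.H10.PA.Fld
import Pool.Agent.K7.H10.PA.Nil
import Pool.Agent.K7.H87.FJ2.Rg

/-!
# Arbitrary commutative rings
-/

set_option autoImplicit false

namespace Pool.Agent.K7.H10.PA

open MvPolynomial Matrix Pool.Agent.Y110.FJ Pool.Agent.R684.FP
open Pool.Agent.R941.FJ (C_equiv C_le C_cyc mem_sup_normal)
open Pool.Agent.K7.H87.FJ2 (ext_solv)

variable {C : ∀ (G : Type) [Group G], Prop}

/-- noetherian rings -/
theorem noeth (hC : ClosedE C) (hF : FbC C)
    (hS : ∀ (S : Type) [Group S], Group.IsSolvable S → C S) {H : Type} [Group H] (hH : C H)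
    {S : Type} [CommRing S] [IsNoetherianRing S] {G : Type} [Group G] (a : G →* Aut2 S)
    (b : G →* H) (hab : ∀ g, a g = 1 → b g = 1 → g = 1)
    (hK : ∀ P ∈ minimalPrimes S, ∃ (K : Type) (_ : Field K) (f : S →+* K), RingHom.ker f = P ∧
      ∃ ρ : H →* GL (Fin 2) K, ∀ g, (bc f (a g), b g) ∈ Fb ρ) : C G := by
  have hfin : Finite (minimalPrimes S) := (minimalPrimes.finite_of_isNoetherianRing S).to_subtype
  choose K hKf f hf ρ hρ using fun P : minimalPrimes S => hK P.1 P.2
  let Φ : G →* H × (∀ P : minimalPrimes S, Fb (ρ P)) :=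
    b.prod (MonoidHom.pi fun P => (((bc (f P)).comp a).prod b).codRestrict (Fb (ρ P)) (hρ P))
  have h1 := hC.base.prod _ _ hH (Pool.Agent.R615.SC.pi_finite hC.base (minimalPrimes S)
    (fun P => Fb (ρ P)) fun P => fib_field (ρ P) hC hF hS hH)
  have h2 : C (G ⧸ Φ.ker) :=
    hC.base.of_injective _ _ (QuotientGroup.kerLift Φ) (QuotientGroup.kerLift_injective Φ) h1
  refine ext_solv hC hS Φ.ker ?_ h2
  obtain ⟨n, hn⟩ := IsNoetherianRing.isNilpotent_nilradical S
  have hs := nil_solv n S (nilradical S) hn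
  have hb : ∀ g : Φ.ker, b g.1 = 1 := fun g => congrArg Prod.fst g.2
  have hmem : ∀ g : Φ.ker, a g.1 ∈ (bc (Ideal.Quotient.mk (nilradical S))).ker := by
    intro g
    rw [mem_ker_bc]
    intro i m
    have h3 : nilradical S = sInf (minimalPrimes S) :=
      (Ideal.sInf_minimalPrimes (I := (⊥ : Ideal S))).symm
    rw [h3, Submodule.mem_sInf]
    intro q hq
    have h4 : (((bc (f ⟨q, hq⟩)).comp a).prod b).codRestrict (Fb (ρ ⟨q, hq⟩)) (hρ ⟨q, hq⟩) g.1 = 1 :=
      congrFun (congrArg Prod.snd g.2) ⟨q, hq⟩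
    have h5 : bc (f ⟨q, hq⟩) (a g.1) = 1 := congrArg (fun z : Fb (ρ ⟨q, hq⟩) => z.1.1) h4
    have h6 : MvPolynomial.map (f ⟨q, hq⟩) (a g.1 (X i)) = X i := by
      rw [← bc_X, h5]
      rfl
    have h7 : f ⟨q, hq⟩ (coeff m (a g.1 (X i) - X i)) = 0 := by
      rw [← coeff_map, map_sub, h6, MvPolynomial.map_X, sub_self, coeff_zero]
    have h8 : coeff m (a g.1 (X i) - X i) ∈ RingHom.ker (f ⟨q, hq⟩) := h7
    rwa [hf ⟨q, hq⟩] at h8
  refine Group.isSolvable_of_isSolvable_injective (G' :=
    (bc (Ideal.Quotient.mk (nilradical S))).ker)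
    (f := (a.comp Φ.ker.subtype).codRestrict _ hmem) ?_
  rw [injective_iff_map_eq_one]
  intro g hg
  have h8 : a g.1 = 1 := congrArg Subtype.val hg
  exact Subtype.ext (hab _ h8 (hb g))

/-- automorphisms defined over a subring -/
theorem mem_range_bc {A : Type} [CommRing A] (S : Subring A) (φ : Aut2 A)
    (h1 : ∀ i m, coeff m (φ (X i)) ∈ S) (h2 : ∀ i m, coeff m (φ⁻¹ (X i)) ∈ S) :
    φ ∈ (bc S.subtype).range := by
  have lift : ∀ p : MvPolynomial (Fin 2) A, (∀ m, coeff m p ∈ S) →
      ∃ q : MvPolynomial (Fin 2) S, MvPolynomial.map S.subtype q = p := by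
    intro p hp
    have : p ∈ Set.range (MvPolynomial.map S.subtype : MvPolynomial (Fin 2) S → MvPolynomial (Fin 2) A) := by
      rw [mem_range_map_iff_coeffs_subset]
      intro c hc
      obtain ⟨m, _, rfl⟩ := mem_coeffs_iff.1 (Finset.mem_coe.1 hc)
      exact ⟨⟨_, hp m⟩, rfl⟩
    exact this
  choose a ha using fun i => lift (φ (X i)) (h1 i)
  choose b hb using fun i => lift (φ⁻¹ (X i)) (h2 i)
  have hinj := MvPolynomial.map_injective (σ := Fin 2) S.subtype S.subtype_injective
  have key : ∀ (ψ : Aut2 A) (c : Fin 2 → MvPolynomial (Fin 2) S),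
      (∀ i, MvPolynomial.map S.subtype (c i) = ψ (X i)) → ∀ p, MvPolynomial.map S.subtype (aeval c p) =
        ψ (MvPolynomial.map S.subtype p) := by
    intro ψ c hc p
    have h3 : (MvPolynomial.map S.subtype).comp ((aeval c : MvPolynomial (Fin 2) S →ₐ[S] MvPolynomial (Fin 2) S) :
        MvPolynomial (Fin 2) S →+* MvPolynomial (Fin 2) S) =
        (ψ : MvPolynomial (Fin 2) A →+* MvPolynomial (Fin 2) A).comp (MvPolynomial.map S.subtype) := by
      apply MvPolynomial.ringHom_ext
      · intro r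
        show MvPolynomial.map S.subtype (aeval c (MvPolynomial.C r)) = ψ (MvPolynomial.map S.subtype (MvPolynomial.C r))
        have h4 : ψ (MvPolynomial.C (S.subtype r)) = MvPolynomial.C (S.subtype r) :=
          ψ.commutes (S.subtype r)
        rw [MvPolynomial.map_C, h4, aeval_C, MvPolynomial.algebraMap_eq, MvPolynomial.map_C]
      · intro i
        show MvPolynomial.map S.subtype (aeval c (X i)) = ψ (MvPolynomial.map S.subtype (X i))
        rw [aeval_X, MvPolynomial.map_X, hc]
    exact DFunLike.congr_fun h3 p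
  have hab : (aeval a).comp (aeval b) = AlgHom.id S (MvPolynomial (Fin 2) S) := by
    apply MvPolynomial.algHom_ext
    intro i
    apply hinj
    rw [AlgHom.comp_apply, aeval_X, key φ a ha, hb]
    have : φ (φ⁻¹ (X i)) = X i := φ.apply_symm_apply _
    rw [this]
    exact (MvPolynomial.map_X _ _).symm
  have hba : (aeval b).comp (aeval a) = AlgHom.id S (MvPolynomial (Fin 2) S) := by
    apply MvPolynomial.algHom_ext
    intro i
    apply hinj
    rw [AlgHom.comp_apply, aeval_X, key φ⁻¹ b hb, ha]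
    have : φ⁻¹ (φ (X i)) = X i := φ.symm_apply_apply _
    rw [this]
    exact (MvPolynomial.map_X _ _).symm
  refine ⟨AlgEquiv.ofAlgHom (aeval a) (aeval b) hab hba, ?_⟩
  apply aut_ext
  intro i
  rw [bc_X]
  show MvPolynomial.map S.subtype (aeval a (X i)) = φ (X i)
  rw [aeval_X, ha]

/-- The group of the automorphisms of the `A`-algebra `A[X 0, X 1]` that become tame over every
field to which `A` maps. By the theorem of Jung and van der Kulk it contains all automorphisms. -/
noncomputable def TA (A : Type) [CommRing A] : Subgroup (Aut2 A) where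
  carrier := {φ | ∀ (K : Type) [Field K] (f : A →+* K), bc f φ ∈ Tame K}
  one_mem' := by
    intro K _ f
    rw [map_one]
    exact one_mem _
  mul_mem' := by
    intro φ ψ h1 h2 K _ f
    rw [map_mul]
    exact mul_mem (h1 K f) (h2 K f)
  inv_mem' := by
    intro φ h K _ f
    rw [map_inv]
    exact inv_mem (h K f)

section fib

variable {H : Type} [Group H]

/-- The pairs of an automorphism that fixes the origin and an element of `H`, with the same
linear part. -/
noncomputable def FL {A : Type} [CommRing A] (ρ : H →* GL (Fin 2) A) : Subgroup (Aut2 A × H) where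
  carrier := {p | p.1 ∈ TA A ∧ ∃ hs : p.1 ∈ St A, lin A ⟨p.1, hs⟩ = ρ p.2}
  one_mem' := ⟨one_mem _, one_mem _, by
    rw [Prod.snd_one, map_one]
    exact map_one (lin A)⟩
  mul_mem' := by
    rintro p q ⟨h1, s1, e1⟩ ⟨h2, s2, e2⟩
    refine ⟨mul_mem h1 h2, mul_mem s1 s2, ?_⟩
    show lin A (⟨p.1, s1⟩ * ⟨q.1, s2⟩) = ρ (p.2 * q.2)
    rw [map_mul, map_mul, e1, e2]
  inv_mem' := by
    rintro p ⟨h1, s1, e1⟩
    refine ⟨inv_mem h1, inv_mem s1, ?_⟩
    show lin A (⟨p.1, s1⟩⁻¹) = ρ p.2⁻¹
    rw [map_inv, map_inv, e1]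

/-- the projection to the automorphisms -/
noncomputable def fG {A : Type} [CommRing A] (ρ : H →* GL (Fin 2) A) : FL ρ →* Aut2 A :=
  (MonoidHom.fst _ _).comp (FL ρ).subtype

/-- the projection to `H` -/
noncomputable def fH {A : Type} [CommRing A] (ρ : H →* GL (Fin 2) A) : FL ρ →* H :=
  (MonoidHom.snd _ _).comp (FL ρ).subtype

/-- the elements that are defined over a subring -/
noncomputable def KS {A : Type} [CommRing A] (ρ : H →* GL (Fin 2) A) (S : Subring A) :
    Subgroup (FL ρ) := (bc S.subtype).range.comap (fG ρ)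

theorem KS_mono {A : Type} [CommRing A] (ρ : H →* GL (Fin 2) A) {S T : Subring A} (h : S ≤ T) :
    KS ρ S ≤ KS ρ T := by
  rintro p ⟨g, hg⟩
  refine ⟨bc (Subring.inclusion h) g, ?_⟩
  rw [← hg, bc_bc]
  rfl

theorem KS_mem (hC : ClosedE C) (hF : FbC C)
    (hS : ∀ (S : Type) [Group S], Group.IsSolvable S → C S) (hH : C H) {A : Type} [CommRing A]
    (ρ : H →* GL (Fin 2) A) (S : Subring A) [IsNoetherianRing S] : C (KS ρ S) := by
  have hi : Function.Injective (bc S.subtype) := bc_injective S.subtype_injective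
  let e := MonoidHom.ofInjective hi
  let a : KS ρ S →* Aut2 S :=
    e.symm.toMonoidHom.comp (((fG ρ).comp (KS ρ S).subtype).codRestrict _ fun p => p.2)
  have ha : ∀ p : KS ρ S, bc S.subtype (a p) = fG ρ p.1 := by
    intro p
    have h1 : e (a p) = ⟨fG ρ p.1, p.2⟩ := e.apply_symm_apply _
    exact congrArg Subtype.val h1
  let b : KS ρ S →* H := (fH ρ).comp (KS ρ S).subtype
  refine noeth hC hF hS hH a b ?_ ?_
  · intro g h1 h2
    have h3 : fG ρ g.1 = 1 := by rw [← ha, h1, map_one]
    exact Subtype.ext (Subtype.ext (Prod.ext h3 h2))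
  · intro P hP
    obtain ⟨Q, hQ, hQP⟩ := Ideal.exists_comap_eq_of_mem_minimalPrimes_of_injective
      S.subtype_injective P hP
    have hdom : IsDomain (A ⧸ Q) := (Ideal.Quotient.isDomain_iff_prime _).2 hQ
    let fA : A →+* FractionRing (A ⧸ Q) :=
      (algebraMap (A ⧸ Q) (FractionRing (A ⧸ Q))).comp (Ideal.Quotient.mk Q)
    have hker : RingHom.ker fA = Q := by
      have h1 : RingHom.ker fA = RingHom.ker (Ideal.Quotient.mk Q) :=
        RingHom.ker_comp_of_injective _ (IsFractionRing.injective (A ⧸ Q) (FractionRing (A ⧸ Q)))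
      rw [h1, Ideal.mk_ker]
    refine ⟨FractionRing (A ⧸ Q), inferInstance, fA.comp S.subtype, ?_,
      (GeneralLinearGroup.map fA).comp ρ, ?_⟩
    · rw [← hQP]
      ext x
      have h8 : S.subtype x ∈ RingHom.ker fA ↔ S.subtype x ∈ Q := by rw [hker]
      exact h8
    · intro g
      obtain ⟨h1, h2, h3⟩ := g.1.2
      have h4 : bc (fA.comp S.subtype) (a g) = bc fA (fG ρ g.1) := by rw [← ha, bc_bc]
      have h5 : fG ρ g.1 ∈ St A := h2
      have h6 : bc fA (fG ρ g.1) ∈ St (FractionRing (A ⧸ Q)) := bc_mem fA h5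
      rw [h4]
      refine ⟨tame_St (h1 _ fA) h6, h6, ?_⟩
      have h7 := lin_bc fA (fG ρ g.1) h5
      exact h7.trans (congrArg (GeneralLinearGroup.map fA) h3)

/-- **arbitrary commutative rings** -/
theorem fib_all (hC : ClosedE C) (hF : FbC C)
    (hS : ∀ (S : Type) [Group S], Group.IsSolvable S → C S) (hH : C H) {A : Type} [CommRing A]
    (ρ : H →* GL (Fin 2) A) : C (FL ρ) := by
  classical
  refine Pool.Agent.Y430.SS.of_directed hC.base (FL ρ) (Finset A)
    (fun i j => ⟨i ∪ j, Finset.subset_union_left, Finset.subset_union_right⟩)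
    (fun s => KS ρ (Subring.closure (s : Set A)))
    (fun s t h => KS_mono ρ (Subring.closure_mono (by exact_mod_cast h))) ?_ ?_
  · intro p
    let s : Finset A := Finset.univ.biUnion fun q : Fin 2 =>
      (fG ρ p (X q)).coeffs ∪ ((fG ρ p)⁻¹ (X q)).coeffs
    have hs : ∀ a ∈ s, a ∈ Subring.closure (s : Set A) := fun a ha =>
      Subring.subset_closure (Finset.mem_coe.2 ha)
    have key : ∀ (r : MvPolynomial (Fin 2) A), r.coeffs ⊆ s →
        ∀ m, coeff m r ∈ Subring.closure (s : Set A) := by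
      intro r hr m
      by_cases h0 : coeff m r = 0
      · rw [h0]
        exact zero_mem _
      · exact hs _ (hr (coeff_mem_coeffs m h0))
    refine ⟨s, mem_range_bc _ _ (fun i => key _ ?_) (fun i => key _ ?_)⟩
    · intro a ha
      exact Finset.mem_biUnion.2 ⟨i, Finset.mem_univ _, Finset.mem_union_left _ ha⟩
    · intro a ha
      exact Finset.mem_biUnion.2 ⟨i, Finset.mem_univ _, Finset.mem_union_right _ ha⟩
  · intro s
    have := is_noetherian_subring_closure (s : Set A) s.finite_toSet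
    exact KS_mem hC hF hS hH ρ _

theorem la_TA {A : Type} [CommRing A] (g : GL (Fin 2) A) : la g ∈ TA A := by
  intro K _ f
  rw [bc_la]
  exact la_tame _

theorem of_FL (hC : ClosedE C) {A : Type} [CommRing A] (ρ : H →* GL (Fin 2) A)
    (h : C (FL ρ)) : C H := by
  refine hC.base.of_injective _ _ (((la.comp ρ).prod
    (MonoidHom.id H)).codRestrict (FL ρ) ?_) ?_ h
  · intro x
    exact ⟨la_TA _, la_mem _, lin_la _⟩
  · intro x y hxy
    exact congrArg (fun q : FL ρ => q.1.2) hxy

end fib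

end Pool.Agent.K7.H10.PA
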