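import Pool.Agent.K7.H10.PA.Basic
import Pool.Agent.K7.H87.FJ2.Fld

/-!
# Tame automorphisms and the automorphisms that fix the origin
-/

set_option autoImplicit false

namespace Pool.Agent.K7.H10.PA

open MvPolynomial Matrix
open Pool.Agent.K7.H87.FJ2 (vec vec_ne vec_par exists_vec par_trans)

/-- `φ` is an affine automorphism: `φ (X i) = ∑ g j i * X j + b i`, `g` in `GL₂(K)` -/
def IsAffine {K : Type} [Field K] (φ : Aut2 K) : Prop :=
  ∃ (g : GL (Fin 2) K) (b : Fin 2 → K), ∀ i, φ (X i) = ∑ j, C (g.val j i) * X j + C (b i)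

/-- `φ` is an elementary automorphism: `φ (X 0) = X 0 + p (X 1)`, `φ (X 1) = X 1` -/
def IsElementary {K : Type} [Field K] (φ : Aut2 K) : Prop :=
  ∃ p : Polynomial K, φ (X 0) = X 0 + Polynomial.aeval (X 1) p ∧ φ (X 1) = X 1

/-- The group of the tame automorphisms of the affine plane over the field `K`, generated by the
affine and the elementary automorphisms. By the theorem of Jung and van der Kulk all automorphisms
of `K[X 0, X 1]` are tame. -/
noncomputable def Tame (K : Type) [Field K] : Subgroup (Aut2 K) :=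
  Subgroup.closure {φ | IsAffine φ ∨ IsElementary φ}

section abs

variable {G Q : Type} [Group G] [Group Q]

/-- the product of a subgroup `N` and the image of a group `Q` that normalizes `N` -/
def semi (N : Subgroup G) (s : Q →* G) (hs : ∀ q, ∀ m ∈ N, s q * m * (s q)⁻¹ ∈ N) :
    Subgroup G where
  carrier := {g | ∃ m ∈ N, ∃ q : Q, g = m * s q}
  one_mem' := ⟨1, one_mem _, 1, by simp⟩
  mul_mem' := by
    rintro _ _ ⟨m, hm, h, rfl⟩ ⟨m', hm', h', rfl⟩
    refine ⟨m * (s h * m' * (s h)⁻¹), mul_mem hm (hs _ _ hm'), h * h', ?_⟩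
    rw [map_mul]
    group
  inv_mem' := by
    rintro _ ⟨m, hm, h, rfl⟩
    refine ⟨s h⁻¹ * m⁻¹ * (s h⁻¹)⁻¹, hs _ _ (inv_mem hm), h⁻¹, ?_⟩
    rw [map_inv]
    group

theorem le_semi {N : Subgroup G} {s : Q →* G} (hs : ∀ q, ∀ m ∈ N, s q * m * (s q)⁻¹ ∈ N) :
    N ≤ semi N s hs := fun m hm => ⟨m, hm, 1, by simp⟩

theorem mem_semi {N : Subgroup G} {s : Q →* G} (hs : ∀ q, ∀ m ∈ N, s q * m * (s q)⁻¹ ∈ N) (q : Q) :
    s q ∈ semi N s hs := ⟨1, one_mem _, q, by simp⟩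

theorem closure_conj {G : Type} [Group G] {S : Set G} {g : G}
    (h : ∀ x ∈ S, g * x * g⁻¹ ∈ Subgroup.closure S) {m : G} (hm : m ∈ Subgroup.closure S) :
    g * m * g⁻¹ ∈ Subgroup.closure S := by
  have h1 : Subgroup.closure S ≤ (Subgroup.closure S).comap (MulAut.conj g).toMonoidHom := by
    rw [Subgroup.closure_le]
    exact h
  exact h1 hm

/-- `s` can be moved across `t b` -/
def Mv {B : Type} (M : Subgroup G) (t : B → G) (s : G) : Prop :=
  ∀ b, ∃ s' ∈ M, ∃ b', t b * s = s' * t b'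

theorem Mv_mul {B : Type} {M : Subgroup G} {t : B → G} {s u : G} (h1 : Mv M t s) (h2 : Mv M t u) :
    Mv M t (s * u) := by
  intro b
  obtain ⟨s', hs', b', h3⟩ := h1 b
  obtain ⟨t', ht', b'', h4⟩ := h2 b'
  refine ⟨s' * t', mul_mem hs' ht', b'', ?_⟩
  rw [← mul_assoc, h3, mul_assoc, h4, mul_assoc]

theorem Mv_closure {B : Type} {M : Subgroup G} {t : B → G} {S : Set G} (h1 : ∀ s ∈ S, Mv M t s)
    (h2 : ∀ s ∈ S, Mv M t s⁻¹) {s : G} (hs : s ∈ Subgroup.closure S) : Mv M t s := by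
  induction hs using Subgroup.closure_induction'' with
  | mem s hs => exact h1 s hs
  | inv_mem s hs => exact h2 s hs
  | one => intro b; exact ⟨1, one_mem _, b, by rw [mul_one, one_mul]⟩
  | mul s t hs ht h1 h2 => exact Mv_mul h1 h2

/-- products of elements of `M` and elements `t b` -/
def Fm {B : Type} (M : Subgroup G) (t : B → G) (s : G) : Prop := ∃ m ∈ M, ∃ b, s = m * t b

theorem Fm_closure {B : Type} [AddGroup B] {M : Subgroup G} {t : B → G} {S : Set G}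
    (ht : ∀ b c, t b * t c = t (b + c)) (h0 : t 0 = 1) (hM : ∀ m ∈ M, Mv M t m)
    (hS : ∀ s ∈ S, Fm M t s) {s : G} (hs : s ∈ Subgroup.closure S) : Fm M t s := by
  induction hs using Subgroup.closure_induction with
  | mem φ hφ => exact hS φ hφ
  | one => exact ⟨1, one_mem _, 0, by rw [h0, mul_one]⟩
  | mul φ ψ _ _ h1 h2 =>
    obtain ⟨s, hs, b, rfl⟩ := h1
    obtain ⟨u, hu, c, rfl⟩ := h2
    obtain ⟨t', ht', b', h⟩ := hM u hu b
    refine ⟨s * t', mul_mem hs ht', b' + c, ?_⟩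
    rw [mul_assoc, ← mul_assoc (t b), h, ← ht]
    group
  | inv φ _ h =>
    obtain ⟨s, hs, b, rfl⟩ := h
    obtain ⟨t', ht', b', h⟩ := hM s⁻¹ (inv_mem hs) (-b)
    refine ⟨t', ht', b', ?_⟩
    have hi : (t b)⁻¹ = t (-b) := by rw [inv_eq_iff_mul_eq_one, ht, add_neg_cancel, h0]
    rw [_root_.mul_inv_rev, hi, h]

end abs

section transl

variable {A : Type} [CommRing A]

/-- the translations -/
noncomputable def trH (b : Fin 2 → A) : MvPolynomial (Fin 2) A →ₐ[A] MvPolynomial (Fin 2) A :=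
  aeval fun i => X i + C (b i)

theorem trH_X (b : Fin 2 → A) (i : Fin 2) : trH b (X i) = X i + C (b i) := aeval_X _ _

theorem trH_C (b : Fin 2 → A) (a : A) : trH b (C a) = C a := (trH b).commutes a

theorem trH_mul (b c : Fin 2 → A) : (trH b).comp (trH c) = trH (b + c) := by
  apply MvPolynomial.algHom_ext
  intro i
  rw [AlgHom.comp_apply, trH_X, trH_X, map_add, trH_X, trH_C, Pi.add_apply, map_add]
  ring

theorem trH_zero : trH (0 : Fin 2 → A) = AlgHom.id A _ := by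
  apply MvPolynomial.algHom_ext
  intro i
  rw [trH_X, Pi.zero_apply, map_zero, add_zero]
  rfl

/-- the translations as automorphisms -/
noncomputable def tr (b : Fin 2 → A) : Aut2 A :=
  AlgEquiv.ofAlgHom (trH b) (trH (-b)) (by rw [trH_mul, add_neg_cancel, trH_zero])
    (by rw [trH_mul, neg_add_cancel, trH_zero])

theorem tr_X (b : Fin 2 → A) (i : Fin 2) : tr b (X i) = X i + C (b i) := trH_X _ _

theorem tr_C (b : Fin 2 → A) (a : A) : tr b (C a) = C a := (tr b).commutes a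

theorem tr_mul (b c : Fin 2 → A) : tr b * tr c = tr (b + c) := by
  apply aut_ext
  intro i
  show trH b (trH c (X i)) = trH (b + c) (X i)
  rw [← trH_mul]
  rfl

theorem tr_zero : tr (0 : Fin 2 → A) = 1 := by
  apply aut_ext
  intro i
  show trH 0 (X i) = X i
  rw [trH_zero]
  rfl

theorem tr_inv (b : Fin 2 → A) : (tr b)⁻¹ = tr (-b) := by
  rw [inv_eq_iff_mul_eq_one, tr_mul, add_neg_cancel, tr_zero]

theorem tr_mem_St {b : Fin 2 → A} (h : tr b ∈ St A) : b = 0 := by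
  rw [mem_St] at h
  funext i
  have := h i
  rw [tr_X, map_add, constantCoeff_X, zero_add, constantCoeff_C] at this
  exact this

end transl

section field

variable {K : Type} [Field K]

/-- the group generated by the shears without linear part -/
noncomputable def Mg (K : Type) [Field K] : Subgroup (Aut2 K) :=
  Subgroup.closure {φ | ∃ (x : Option K) (p : Polynomial K), Polynomial.X ^ 2 ∣ p ∧ φ = sh (vec x) p}

theorem sq_dvd_comp {p : Polynomial K} (hp : Polynomial.X ^ 2 ∣ p) (a b : K) :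
    Polynomial.X ^ 2 ∣ Polynomial.C a * p.comp (Polynomial.C b * Polynomial.X) := by
  obtain ⟨q, rfl⟩ := hp
  rw [Polynomial.mul_comp, Polynomial.pow_comp, Polynomial.X_comp, mul_pow]
  refine dvd_mul_of_dvd_right (dvd_mul_of_dvd_left (dvd_mul_of_dvd_right dvd_rfl _) _) _

theorem sq_dvd_comp' {p : Polynomial K} (hp : Polynomial.X ^ 2 ∣ p) (b : K) :
    Polynomial.X ^ 2 ∣ p.comp (Polynomial.C b * Polynomial.X) := by
  have := sq_dvd_comp hp 1 b
  rwa [Polynomial.C_1, one_mul] at this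

theorem sh_zero_vec (p : Polynomial K) : sh (0 : Fin 2 → K) p = 1 := by
  apply aut_ext
  intro i
  rw [sh_X, Pi.zero_apply, C_0, zero_mul, add_zero]
  rfl

theorem sh_mem_Mg {p : Polynomial K} (hp : Polynomial.X ^ 2 ∣ p) (v : Fin 2 → K) :
    sh v p ∈ Mg K := by
  by_cases hv : v = 0
  · rw [hv, sh_zero_vec]
    exact one_mem _
  · obtain ⟨x, a, ha, rfl⟩ := exists_vec hv
    rw [sh_smul]
    exact Subgroup.subset_closure ⟨x, _, sq_dvd_comp hp _ _, rfl⟩

theorem Mg_conj (g : GL (Fin 2) K) {m : Aut2 K} (hm : m ∈ Mg K) : la g * m * (la g)⁻¹ ∈ Mg K := by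
  refine closure_conj ?_ hm
  rintro _ ⟨x, f, hf, rfl⟩
  rw [la_sh]
  exact sh_mem_Mg (sq_dvd_comp' hf _) _

/-- `M GL₂(K)` is a subgroup -/
noncomputable def MG (K : Type) [Field K] : Subgroup (Aut2 K) :=
  semi (Mg K) la fun g _ hm => Mg_conj g hm

theorem Mg_le : Mg K ≤ MG K := le_semi _

theorem la_mem_MG (h : GL (Fin 2) K) : la h ∈ MG K := mem_semi _ h

theorem Mg_le_St : Mg K ≤ St K := by
  rw [Mg, Subgroup.closure_le]
  rintro _ ⟨x, p, hp, rfl⟩
  exact sh_mem ((dvd_pow_self _ two_ne_zero).trans hp) _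

theorem lin_Mg {m : Aut2 K} (hm : m ∈ Mg K) (hs : m ∈ St K) : lin K ⟨m, hs⟩ = 1 := by
  have h1 : Mg K ≤ (lin K).ker.map (St K).subtype := by
    rw [Mg, Subgroup.closure_le]
    rintro _ ⟨x, p, hp, rfl⟩
    have h2 : sh (vec x) p ∈ St K := sh_mem ((dvd_pow_self _ two_ne_zero).trans hp) _
    exact ⟨⟨_, h2⟩, lin_sh hp _ h2, rfl⟩
  obtain ⟨⟨m', hm'⟩, h3, h4⟩ := h1 hm
  have h5 : m' = m := h4
  subst h5
  exact h3

theorem MG_le_St : MG K ≤ St K := by
  rintro _ ⟨m, hm, h, rfl⟩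
  exact mul_mem (Mg_le_St hm) (la_mem h)

theorem ker_MG {φ : Aut2 K} (hφ : φ ∈ MG K) (hs : φ ∈ St K) (h1 : lin K ⟨φ, hs⟩ = 1) : φ ∈ Mg K := by
  obtain ⟨m, hm, h, rfl⟩ := hφ
  have h2 : (⟨m * la h, hs⟩ : St K) = ⟨m, Mg_le_St hm⟩ * ⟨la h, la_mem h⟩ := rfl
  rw [h2, map_mul, lin_Mg hm, one_mul, lin_la] at h1
  rw [h1, map_one, mul_one]
  exact hm

/-- shears with a linear part -/
theorem sh_mem_MG {p : Polynomial K} (hp : Polynomial.X ∣ p) (v : Fin 2 → K) : sh v p ∈ MG K := by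
  obtain ⟨q, rfl⟩ := hp
  have h1 : Polynomial.X * q = Polynomial.X ^ 2 * q.divX + Polynomial.C (q.coeff 0) * Polynomial.X := by
    conv_lhs => rw [← Polynomial.divX_mul_X_add q]
    ring
  rw [h1, ← sh_mul]
  refine mul_mem (Mg_le (sh_mem_Mg (dvd_mul_right _ _) v)) ?_
  obtain ⟨c, hc⟩ : ∃ c, c = q.coeff 0 := ⟨_, rfl⟩
  rw [← hc]
  have hdet : Matrix.det !![1 - c * (v 0 * v 1), -(c * (v 1 * v 1)); c * (v 0 * v 0),
      1 + c * (v 0 * v 1)] = 1 := by
    rw [Matrix.det_fin_two_of]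
    ring
  let g : GL (Fin 2) K := GeneralLinearGroup.mkOfDetNeZero _ (by rw [hdet]; exact one_ne_zero)
  have hg : g.val = !![1 - c * (v 0 * v 1), -(c * (v 1 * v 1)); c * (v 0 * v 0),
      1 + c * (v 0 * v 1)] := rfl
  have h2 : sh v (Polynomial.C c * Polynomial.X) = la g := by
    apply aut_ext
    intro i
    rw [sh_X, la_X, hg, map_mul, Polynomial.aeval_C, Polynomial.aeval_X,
      MvPolynomial.algebraMap_eq, el]
    fin_cases i <;> simp [Fin.sum_univ_two] <;> ring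
  rw [h2]
  exact la_mem_MG g

theorem tr_la (b : Fin 2 → K) (g : GL (Fin 2) K) : ∃ b', tr b * la g = la g * tr b' := by
  obtain ⟨b', hb'⟩ : ∃ b' : Fin 2 → K, ∀ i, b' i = g.val 0 i * b 0 + g.val 1 i * b 1 :=
    ⟨fun i => g.val 0 i * b 0 + g.val 1 i * b 1, fun i => rfl⟩
  refine ⟨b', aut_ext fun i => ?_⟩
  have h1 : (tr b * la g) (X i) = tr b (la g (X i)) := rfl
  have h2 : (la g * tr b') (X i) = la g (tr b' (X i)) := rfl
  rw [h1, h2, la_X, tr_X, map_add, la_X, la_C, Fin.sum_univ_two, map_add, map_mul, map_mul, tr_C,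
    tr_C, tr_X, tr_X, hb', C_add, C_mul, C_mul]
  ring

theorem tr_el (b v : Fin 2 → K) : tr b (el v) = el v + C (v 0 * b 1 - v 1 * b 0) := by
  rw [el, map_sub, map_mul, map_mul, tr_C, tr_C, tr_X, tr_X, C_sub, C_mul, C_mul]
  ring

theorem tr_aeval (b v : Fin 2 → K) (p : Polynomial K) : tr b (Polynomial.aeval (el v) p) =
    Polynomial.aeval (el v + C (v 0 * b 1 - v 1 * b 0)) p := by
  rw [← tr_el]
  exact (Polynomial.aeval_algHom_apply (tr b : MvPolynomial (Fin 2) K →ₐ[K] MvPolynomial (Fin 2) K)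
    (el v) p).symm

theorem tr_sh (b : Fin 2 → K) (v : Fin 2 → K) (p : Polynomial K) :
    ∃ b' p', Polynomial.X ∣ p' ∧ tr b * sh v p = sh v p' * tr b' := by
  obtain ⟨d, hd⟩ : ∃ d, d = v 0 * b 1 - v 1 * b 0 := ⟨_, rfl⟩
  obtain ⟨e, he⟩ : ∃ e, e = p.eval d := ⟨_, rfl⟩
  obtain ⟨b', hb'⟩ : ∃ b' : Fin 2 → K, ∀ i, b' i = b i + v i * e :=
    ⟨fun i => b i + v i * e, fun i => rfl⟩
  obtain ⟨p', hp'⟩ : ∃ p', p' = p.comp (Polynomial.X + Polynomial.C d) - Polynomial.C e := ⟨_, rfl⟩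
  refine ⟨b', p', ?_, aut_ext fun i => ?_⟩
  · rw [Polynomial.X_dvd_iff, Polynomial.coeff_zero_eq_eval_zero, hp', he]
    simp
  · have h1 : (tr b * sh v p) (X i) = tr b (sh v p (X i)) := rfl
    have h2 : (sh v p' * tr b') (X i) = sh v p' (tr b' (X i)) := rfl
    have h3 : Polynomial.aeval (el v) p' = Polynomial.aeval (el v + C d) p - C e := by
      rw [hp', map_sub, Polynomial.aeval_comp, map_add, Polynomial.aeval_X, Polynomial.aeval_C,
        Polynomial.aeval_C]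
      rfl
    rw [h1, h2, sh_X, tr_X, map_add, map_add, map_mul, tr_C, tr_X, tr_aeval, ← hd, sh_X, sh_C, h3,
      hb', C_add, C_mul]
    ring

theorem key_MG {s : Aut2 K} (hs : s ∈ MG K) : Mv (MG K) (tr : (Fin 2 → K) → Aut2 K) s := by
  obtain ⟨m, hm, g, rfl⟩ := hs
  refine Mv_mul (Mv_closure ?_ ?_ hm) ?_
  · rintro _ ⟨x, p, hp, rfl⟩ b
    obtain ⟨b', p', hp', h⟩ := tr_sh b (vec x) p
    exact ⟨_, sh_mem_MG hp' _, b', h⟩
  · rintro _ ⟨x, p, hp, rfl⟩ b
    rw [sh_inv]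
    obtain ⟨b', p', hp', h⟩ := tr_sh b (vec x) (-p)
    exact ⟨_, sh_mem_MG hp' _, b', h⟩
  · intro b
    obtain ⟨b', hb'⟩ := tr_la b g
    exact ⟨la g, la_mem_MG g, b', hb'⟩

theorem gen_aff {φ : Aut2 K} {g : GL (Fin 2) K} {b : Fin 2 → K}
    (h : ∀ i, φ (X i) = ∑ j, C (g.val j i) * X j + C (b i)) :
    Fm (MG K) (tr : (Fin 2 → K) → Aut2 K) φ := by
  refine ⟨la g, la_mem_MG g, b, aut_ext fun i => ?_⟩
  have h2 : (la g * tr b) (X i) = la g (tr b (X i)) := rfl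
  rw [h2, h, tr_X, map_add, la_X, la_C]

theorem gen_el {φ : Aut2 K} {p : Polynomial K} (h0 : φ (X 0) = X 0 + Polynomial.aeval (X 1) p)
    (h1 : φ (X 1) = X 1) : Fm (MG K) (tr : (Fin 2 → K) → Aut2 K) φ := by
  obtain ⟨v, hv0, hv1⟩ : ∃ v : Fin 2 → K, v 0 = 1 ∧ v 1 = 0 := ⟨![1, 0], rfl, rfl⟩
  obtain ⟨e, he⟩ : ∃ e, e = p.coeff 0 := ⟨_, rfl⟩
  obtain ⟨b, hb0, hb1⟩ : ∃ b : Fin 2 → K, b 0 = e ∧ b 1 = 0 := ⟨![e, 0], rfl, rfl⟩
  have hel : el v = X 1 := by
    rw [el, hv0, hv1, C_1, C_0, zero_mul, one_mul, sub_zero]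
  have hX : Polynomial.X ∣ p - Polynomial.C e := by
    rw [Polynomial.X_dvd_iff, he]
    simp
  have h3 : Polynomial.aeval (el v) (p - Polynomial.C e) =
      Polynomial.aeval (X 1 : MvPolynomial (Fin 2) K) p - C e := by
    rw [hel, map_sub, Polynomial.aeval_C]
    rfl
  obtain ⟨P, hP⟩ : ∃ P, P = p - Polynomial.C e := ⟨_, rfl⟩
  rw [← hP] at hX h3
  obtain ⟨q, hq⟩ : ∃ q : MvPolynomial (Fin 2) K, q = Polynomial.aeval (X 1) p := ⟨_, rfl⟩
  rw [← hq] at h3 h0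
  have key : ∀ i, φ (X i) = (sh v P) (tr b (X i)) := by
    rw [Fin.forall_fin_two]
    constructor
    · rw [tr_X, map_add, sh_X, sh_C, h3, h0, hv0, hb0, C_1]
      ring
    · rw [tr_X, map_add, sh_X, sh_C, h3, h1, hv1, hb1, C_0]
      ring
  exact ⟨sh v P, sh_mem_MG hX _, b, aut_ext key⟩

theorem gen_form (φ : Aut2 K) (h : φ ∈ {φ : Aut2 K | IsAffine φ ∨ IsElementary φ}) :
    Fm (MG K) (tr : (Fin 2 → K) → Aut2 K) φ := by
  rcases h with h | h
  · obtain ⟨g, b, h⟩ := h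
    exact gen_aff h
  · obtain ⟨p, h0, h1⟩ := h
    exact gen_el h0 h1

theorem key_form (m : Aut2 K) (hm : m ∈ MG K) : Mv (MG K) (tr : (Fin 2 → K) → Aut2 K) m :=
  key_MG hm

/-- all tame automorphisms are products of elements of `MG` and translations -/
theorem tame_form {φ : Aut2 K} (hφ : φ ∈ Tame K) : Fm (MG K) (tr : (Fin 2 → K) → Aut2 K) φ :=
  Fm_closure (G := Aut2 K) (B := Fin 2 → K) (M := MG K) (t := tr)
    (S := {φ : Aut2 K | IsAffine φ ∨ IsElementary φ}) tr_mul tr_zero key_form gen_form hφ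

theorem tame_St {φ : Aut2 K} (hφ : φ ∈ Tame K) (hs : φ ∈ St K) : φ ∈ MG K := by
  obtain ⟨s, h1, b, rfl⟩ := tame_form hφ
  have h2 : tr b ∈ St K := (Subgroup.mul_mem_cancel_left _ (MG_le_St h1)).1 hs
  rw [tr_mem_St h2, tr_zero, mul_one]
  exact h1

theorem la_tame (g : GL (Fin 2) K) : la g ∈ Tame K := by
  refine Subgroup.subset_closure (Or.inl ⟨g, 0, fun i => ?_⟩)
  rw [la_X, Pi.zero_apply, C_0, add_zero]

end field

end Pool.Agent.K7.H10.PA
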